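import Pool.Agent.H41.Lib.H534R3.UD
/-! # Blocks with small exponential sums -/

set_option autoImplicit false

open MeasureTheory Filter Topology
open scoped Real

namespace Pool.Agent.H534R3.UDist

/-! ### The time change -/

/-- The least exponent `m` with `b ^ n ≤ a ^ m`. -/
noncomputable def tau (a b : ℝ) (n : ℕ) : ℕ := sInf {m | b ^ n ≤ a ^ m}

theorem tau_spec {a : ℝ} (ha : 1 < a) (b : ℝ) (n : ℕ) : b ^ n ≤ a ^ tau a b n := by
  have hne : {m : ℕ | b ^ n ≤ a ^ m}.Nonempty := by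
    obtain ⟨m, hm⟩ := pow_unbounded_of_one_lt (b ^ n) ha
    exact ⟨m, hm.le⟩
  exact Nat.sInf_mem hne

theorem tau_le {a b : ℝ} {n m : ℕ} (h : b ^ n ≤ a ^ m) : tau a b n ≤ m := Nat.sInf_le h

theorem tau_lt {a b : ℝ} {n m : ℕ} (h : m < tau a b n) : a ^ m < b ^ n := by
  by_contra hcon
  exact absurd (tau_le (not_lt.1 hcon)) (not_le.2 h)

theorem tau_up {a b : ℝ} (ha : 1 < a) (hb : 1 < b) (n : ℕ) : a ^ tau a b n ≤ a * b ^ n := by
  rcases Nat.eq_zero_or_pos (tau a b n) with h | h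
  · rw [h, pow_zero]
    have : 1 ≤ b ^ n := one_le_pow₀ hb.le
    nlinarith
  · have h1 : a ^ (tau a b n - 1) < b ^ n := tau_lt (by omega)
    have h2 : a ^ tau a b n = a * a ^ (tau a b n - 1) := by
      rw [← pow_succ']
      congr 1
      omega
    rw [h2]
    exact mul_le_mul_of_nonneg_left h1.le (by linarith)

theorem tau_mono {a b : ℝ} (ha : 1 < a) (hb : 1 < b) {n n' : ℕ} (h : n ≤ n') :
    tau a b n ≤ tau a b n' :=
  tau_le ((pow_le_pow_right₀ hb.le h).trans (tau_spec ha b n'))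

theorem tau_self {b : ℝ} (hb : 1 < b) (n : ℕ) : tau b b n = n := by
  refine le_antisymm (tau_le le_rfl) ?_
  have := tau_spec hb b n
  exact (pow_le_pow_iff_right₀ hb).1 this

theorem tau_diff {a b : ℝ} (ha : 1 < a) (hb : 1 < b) {M D : ℕ} (hM : a ^ (D + 1) ≤ b ^ M) (n : ℕ) :
    tau a b n + D ≤ tau a b (n + M) := by
  have h1 : a ^ (tau a b n + D) ≤ a ^ tau a b (n + M) := by
    have h2 := tau_up ha hb n
    have h3 := tau_spec ha b (n + M)
    have h4 : 0 ≤ a ^ D := by positivity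
    have h5 : 0 ≤ b ^ n := by positivity
    calc a ^ (tau a b n + D) = a ^ tau a b n * a ^ D := pow_add _ _ _
      _ ≤ (a * b ^ n) * a ^ D := mul_le_mul_of_nonneg_right h2 h4
      _ = b ^ n * a ^ (D + 1) := by ring
      _ ≤ b ^ n * b ^ M := mul_le_mul_of_nonneg_left hM h5
      _ = b ^ (n + M) := (pow_add _ _ _).symm
      _ ≤ _ := h3
  exact (pow_le_pow_iff_right₀ ha).1 h1

theorem tau_diff' {a b : ℝ} (ha : 1 < a) (hb : 1 < b) {M D : ℕ} (hM : a * b ^ M ≤ a ^ D) (n : ℕ) :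
    tau a b (n + M) ≤ tau a b n + D := by
  refine tau_le ?_
  have h2 := tau_spec ha b n
  calc b ^ (n + M) = b ^ n * b ^ M := pow_add _ _ _
    _ ≤ a ^ tau a b n * b ^ M := mul_le_mul_of_nonneg_right h2 (by positivity)
    _ ≤ a ^ tau a b n * (a * b ^ M) := by
        refine mul_le_mul_of_nonneg_left ?_ (by positivity)
        have : 0 < b ^ M := by positivity
        nlinarith
    _ ≤ a ^ tau a b n * a ^ D := mul_le_mul_of_nonneg_left hM (by positivity)
    _ = _ := (pow_add _ _ _).symm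

theorem tau_four {a b : ℝ} (ha : 1 < a) (hb : 1 < b) {n n' : ℕ} (hn : 4 * n ≤ n')
    (h2 : 2 ≤ tau a b n) : 2 * tau a b n ≤ tau a b n' := by
  have h1 : a ^ (2 * tau a b n) ≤ a ^ tau a b n' := by
    have h3 := tau_up ha hb n
    have h4 := tau_spec ha b n'
    have h5 : a ^ (tau a b n - 1) ≤ b ^ n := (tau_lt (by omega)).le
    calc a ^ (2 * tau a b n) ≤ a ^ (4 * (tau a b n - 1)) := pow_le_pow_right₀ ha.le (by omega)
      _ = (a ^ (tau a b n - 1)) ^ 4 := by rw [mul_comm, pow_mul]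
      _ ≤ (b ^ n) ^ 4 := pow_le_pow_left₀ (by positivity) h5 4
      _ = b ^ (4 * n) := by rw [← pow_mul, mul_comm]
      _ ≤ b ^ n' := pow_le_pow_right₀ hb.le hn
      _ ≤ _ := h4
  exact (pow_le_pow_iff_right₀ ha).1 h1

theorem tau_bias {a b : ℝ} (ha : 1 < a) (hb : 1 < b) {n k R e : ℕ} (hR : (e + 1) * R ≤ n) :
    (tau a b (n + k * R) - tau a b n) * (e + 1) ≤ (e + 1) + k * tau a b n := by
  set d := tau a b (n + k * R) - tau a b n with hd
  have hmono := tau_mono ha hb (Nat.le_add_right n (k * R))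
  have h1 : a ^ d ≤ a * b ^ (k * R) := by
    have h2 := tau_up ha hb (n + k * R)
    have h3 := tau_spec ha b n
    have h4 : a ^ tau a b (n + k * R) = a ^ tau a b n * a ^ d := by
      rw [← pow_add]
      congr 1
      omega
    rw [h4, pow_add] at h2
    have h5 : 0 < b ^ n := by positivity
    have h6 : b ^ n * a ^ d ≤ b ^ n * (a * b ^ (k * R)) := by
      calc b ^ n * a ^ d ≤ a ^ tau a b n * a ^ d := mul_le_mul_of_nonneg_right h3 (by positivity)
        _ ≤ a * (b ^ n * b ^ (k * R)) := h2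
        _ = _ := by ring
    exact le_of_mul_le_mul_left h6 h5
  have h2 : a ^ (d * (e + 1)) ≤ a ^ ((e + 1) + k * tau a b n) := by
    calc a ^ (d * (e + 1)) = (a ^ d) ^ (e + 1) := pow_mul _ _ _
      _ ≤ (a * b ^ (k * R)) ^ (e + 1) := pow_le_pow_left₀ (by positivity) h1 _
      _ = a ^ (e + 1) * b ^ (k * ((e + 1) * R)) := by rw [mul_pow, ← pow_mul]; ring_nf
      _ ≤ a ^ (e + 1) * b ^ (k * n) := by
          refine mul_le_mul_of_nonneg_left ?_ (by positivity)
          exact pow_le_pow_right₀ hb.le (Nat.mul_le_mul_left k hR)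
      _ = a ^ (e + 1) * (b ^ n) ^ k := by rw [← pow_mul, mul_comm k n]
      _ ≤ a ^ (e + 1) * (a ^ tau a b n) ^ k := by
          refine mul_le_mul_of_nonneg_left ?_ (by positivity)
          exact pow_le_pow_left₀ (by positivity) (tau_spec ha b n) k
      _ = _ := by rw [← pow_mul, ← pow_add, mul_comm k]
  exact (pow_le_pow_iff_right₀ ha).1 h2

/-! ### The second moment -/

theorem continuous_ee : Continuous ee := by
  unfold ee
  fun_prop

theorem int_ee {c : ℝ} (hc : c ≠ 0) (u v : ℝ) : ‖∫ ξ in u..v, ee (c * ξ)‖ ≤ 1 / |c| := by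
  have h1 : ∀ ξ : ℝ, ee (c * ξ) = Complex.exp ((2 * π * Complex.I * c : ℂ) * ξ) := by
    intro ξ
    rw [ee]
    congr 1
    push_cast
    ring
  have hc' : (2 * π * Complex.I * c : ℂ) ≠ 0 := by
    have : (c : ℂ) ≠ 0 := by exact_mod_cast hc
    have h2 : (π : ℂ) ≠ 0 := by exact_mod_cast Real.pi_ne_zero
    simp [this, h2]
  simp_rw [h1]
  rw [integral_exp_mul_complex hc', norm_div]
  have h2 : ∀ ξ : ℝ, ‖Complex.exp ((2 * π * Complex.I * c : ℂ) * ξ)‖ = 1 := by
    intro ξ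
    rw [← h1, norm_ee]
  have h3 : ‖Complex.exp ((2 * π * Complex.I * c : ℂ) * v) -
      Complex.exp ((2 * π * Complex.I * c : ℂ) * u)‖ ≤ 2 := by
    refine (norm_sub_le _ _).trans ?_
    rw [h2, h2]
    norm_num
  have h4 : ‖(2 * π * Complex.I * c : ℂ)‖ = 2 * π * |c| := by
    rw [norm_mul, norm_mul, norm_mul, Complex.norm_I, Complex.norm_real, Complex.norm_real,
      Real.norm_eq_abs, Real.norm_eq_abs, abs_of_pos Real.pi_pos]
    simp
  rw [h4]
  have hc0 : 0 < |c| := abs_pos.2 hc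
  have hpi : 1 ≤ π := by linarith [Real.pi_gt_three]
  rw [div_le_div_iff₀ (by positivity) hc0]
  nlinarith

theorem norm_sum_sq (I : Finset ℕ) (f : ℕ → ℝ) :
    ‖∑ m ∈ I, ee (f m)‖ ^ 2 = ∑ m ∈ I, ∑ m' ∈ I, (ee (f m - f m')).re := by
  have h1 : ((‖∑ m ∈ I, ee (f m)‖ ^ 2 : ℝ) : ℂ) = ∑ m ∈ I, ∑ m' ∈ I, ee (f m - f m') := by
    rw [← Complex.normSq_eq_norm_sq, ← Complex.mul_conj, map_sum, Finset.sum_mul_sum]
    refine Finset.sum_congr rfl fun m _ => Finset.sum_congr rfl fun m' _ => ?_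
    rw [ee, ee, ee, ← Complex.exp_conj, ← Complex.exp_add]
    congr 1
    simp only [map_mul, Complex.conj_ofReal, Complex.conj_I, map_ofNat]
    push_cast
    ring
  have h2 := congrArg Complex.re h1
  rw [Complex.ofReal_re, Complex.re_sum] at h2
  rw [h2]
  exact Finset.sum_congr rfl fun m _ => Complex.re_sum _ _

theorem second_moment {α : ℝ} (hα : 1 < |α|) (a b h : ℕ) (hh : 1 ≤ h) (u w : ℝ)
    (haw : 1 ≤ |α| ^ a * w) :
    ∫ ξ in u..(u + w), ‖∑ m ∈ Finset.Ico a b, ee (h * (ξ * α ^ m))‖ ^ 2 ≤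
      w * ((b - a : ℕ) : ℝ) * (1 + 1 / (1 - |α|⁻¹) ^ 2) := by
  set θ : ℝ := |α|⁻¹ with hθ
  have hα0 : 0 < |α| := by linarith
  have hθ0 : 0 < θ := inv_pos.2 hα0
  have hθ1 : θ < 1 := inv_lt_one_of_one_lt₀ hα
  have h1θ : 0 < 1 - θ := by linarith
  -- off-diagonal bound
  have hoff : ∀ m m' : ℕ, m ≠ m' → (1 - θ) * |α| ^ m ≤ |α ^ m - α ^ m'| := by
    intro m m' hmm
    rcases lt_or_gt_of_ne hmm with h | h
    · have h1 : |α| ^ m ≤ θ * |α| ^ m' := by
        rw [hθ, inv_mul_eq_div, le_div_iff₀ hα0, ← pow_succ]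
        exact pow_le_pow_right₀ hα.le h
      have h2 : |α| ^ m' - |α| ^ m ≤ |α ^ m - α ^ m'| := by
        rw [← abs_pow, ← abs_pow, abs_sub_comm]
        exact abs_sub_abs_le_abs_sub _ _
      have h3 : 0 ≤ |α| ^ m' := by positivity
      have h4 : |α| ^ m ≤ |α| ^ m' := pow_le_pow_right₀ hα.le h.le
      nlinarith
    · have h1 : |α| ^ m' ≤ θ * |α| ^ m := by
        rw [hθ, inv_mul_eq_div, le_div_iff₀ hα0, ← pow_succ]
        exact pow_le_pow_right₀ hα.le h
      have h2 : |α| ^ m - |α| ^ m' ≤ |α ^ m - α ^ m'| := by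
        rw [← abs_pow, ← abs_pow]
        exact abs_sub_abs_le_abs_sub _ _
      linarith
  have hint : ∀ m m' : ℕ, m ≠ m' →
      ‖∫ ξ in u..(u + w), ee (h * (ξ * α ^ m) - h * (ξ * α ^ m'))‖ ≤ θ ^ m / (1 - θ) := by
    intro m m' hmm
    have h1 : ∀ ξ : ℝ, ee (h * (ξ * α ^ m) - h * (ξ * α ^ m')) = ee ((h * (α ^ m - α ^ m')) * ξ) := by
      intro ξ
      congr 1
      ring
    simp_rw [h1]
    have hpos : 0 < (1 - θ) * |α| ^ m := by positivity
    have h2 : (h : ℝ) * (α ^ m - α ^ m') ≠ 0 := by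
      have h3 : (h : ℝ) ≠ 0 := by
        have : h ≠ 0 := by omega
        exact_mod_cast this
      have h4 : α ^ m - α ^ m' ≠ 0 := by
        intro h5
        have := hoff m m' hmm
        rw [h5, abs_zero] at this
        linarith
      exact mul_ne_zero h3 h4
    refine (int_ee h2 _ _).trans ?_
    have h3 : (1 - θ) * |α| ^ m ≤ |(h : ℝ) * (α ^ m - α ^ m')| := by
      rw [abs_mul, Nat.abs_cast]
      have h4 : (1 : ℝ) ≤ h := by exact_mod_cast hh
      have h5 := hoff m m' hmm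
      have h6 := abs_nonneg (α ^ m - α ^ m')
      nlinarith
    refine (one_div_le_one_div_of_le hpos h3).trans (le_of_eq ?_)
    rw [hθ, inv_pow]
    field_simp
  have hcont : ∀ m m' : ℕ, Continuous fun ξ : ℝ => ee (h * (ξ * α ^ m) - h * (ξ * α ^ m')) := by
    intro m m'
    refine continuous_ee.comp ?_
    fun_prop
  simp_rw [norm_sum_sq]
  rw [intervalIntegral.integral_finsetSum fun m _ => ?_]
  swap
  · refine Continuous.intervalIntegrable ?_ _ _
    exact continuous_finsetSum _ fun m' _ => Complex.continuous_re.comp (hcont m m')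
  have hrow : ∀ m' ∈ Finset.Ico a b,
      ∑ m ∈ Finset.Ico a b, ∫ ξ in u..(u + w), (ee (h * (ξ * α ^ m) - h * (ξ * α ^ m'))).re ≤
        w * (1 + 1 / (1 - θ) ^ 2) := by
    intro m' hm'
    have hre : ∀ m, ∫ ξ in u..(u + w), (ee (h * (ξ * α ^ m) - h * (ξ * α ^ m'))).re =
        (∫ ξ in u..(u + w), ee (h * (ξ * α ^ m) - h * (ξ * α ^ m'))).re := by
      intro m
      exact Complex.reCLM.intervalIntegral_comp_comm ((hcont m m').intervalIntegrable _ _)
    have hterm : ∀ m ∈ Finset.Ico a b,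
        ∫ ξ in u..(u + w), (ee (h * (ξ * α ^ m) - h * (ξ * α ^ m'))).re ≤
          (if m = m' then w else 0) + θ ^ m / (1 - θ) := by
      intro m _
      by_cases hmm : m = m'
      · rw [if_pos hmm, hmm]
        have : ∀ ξ : ℝ, (ee (h * (ξ * α ^ m') - h * (ξ * α ^ m'))).re = 1 := by
          intro ξ
          rw [sub_self, ee]
          simp
        simp_rw [this]
        rw [intervalIntegral.integral_const, smul_eq_mul]
        have : 0 ≤ θ ^ m' / (1 - θ) := by positivity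
        linarith
      · rw [if_neg hmm, zero_add, hre]
        exact (Complex.re_le_norm _).trans (hint m m' hmm)
    refine (Finset.sum_le_sum hterm).trans ?_
    rw [Finset.sum_add_distrib, Finset.sum_ite_eq' , if_pos hm', ← Finset.sum_div]
    have hgeo : ∑ m ∈ Finset.Ico a b, θ ^ m ≤ θ ^ a / (1 - θ) :=
      geom_sum_Ico_le_of_lt_one hθ0.le hθ1
    have h2 : θ ^ a ≤ w := by
      rw [hθ, inv_pow, inv_le_iff_one_le_mul₀ (by positivity)]
      rw [mul_comm]
      exact haw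
    have h3 : (∑ m ∈ Finset.Ico a b, θ ^ m) / (1 - θ) ≤ w / (1 - θ) ^ 2 := by
      rw [sq, ← div_div]
      refine div_le_div_of_nonneg_right ?_ h1θ.le
      exact hgeo.trans (div_le_div_of_nonneg_right h2 h1θ.le)
    have h4 : w * (1 + 1 / (1 - θ) ^ 2) = w + w / (1 - θ) ^ 2 := by ring
    linarith
  have hinner : ∀ m ∈ Finset.Ico a b,
      ∫ ξ in u..(u + w), ∑ m' ∈ Finset.Ico a b, (ee (h * (ξ * α ^ m) - h * (ξ * α ^ m'))).re =
        ∑ m' ∈ Finset.Ico a b, ∫ ξ in u..(u + w), (ee (h * (ξ * α ^ m) - h * (ξ * α ^ m'))).re := by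
    intro m _
    exact intervalIntegral.integral_finsetSum fun m' _ =>
      (Complex.continuous_re.comp (hcont m m')).intervalIntegrable _ _
  rw [Finset.sum_congr rfl hinner, Finset.sum_comm]
  refine (Finset.sum_le_sum hrow).trans (le_of_eq ?_)
  rw [Finset.sum_const, Nat.card_Ico, nsmul_eq_mul]
  ring

/-- The constant of the second moment bound. -/
noncomputable def CC (α : ℝ) : ℝ := 1 + 1 / (1 - |α|⁻¹) ^ 2

theorem CC_pos (α : ℝ) : 0 < CC α := by
  unfold CC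
  positivity

theorem exists_good (α : ℕ → ℝ) (hα : ∀ i, 1 < |α i|) (q : ℕ) (hq : 1 ≤ q) (a c : ℕ → ℕ)
    (u w : ℝ) (hw : 0 < w) (haw : ∀ i, 1 ≤ |α i| ^ a i * w)
    (hd : ∀ i < q, 8 * (q : ℝ) ^ 4 * CC (α i) ≤ ((c i - a i : ℕ) : ℝ)) :
    ∃ ξ ∈ Set.Icc u (u + w), ∀ i < q, ∀ h : ℕ, 1 ≤ h → h ≤ q →
      ‖∑ m ∈ Finset.Ico (a i) (c i), ee (h * (ξ * α i ^ m))‖ ≤ ((c i - a i : ℕ) : ℝ) / (2 * q) := by
  by_contra hcon
  push Not at hcon
  have hq0 : (0 : ℝ) < q := by exact_mod_cast hq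
  have hd0 : ∀ i < q, 0 < ((c i - a i : ℕ) : ℝ) := by
    intro i hi
    refine lt_of_lt_of_le ?_ (hd i hi)
    have := CC_pos (α i)
    positivity
  set S : ℕ → ℕ → ℝ → ℝ := fun i h ξ =>
    ‖∑ m ∈ Finset.Ico (a i) (c i), ee (h * (ξ * α i ^ m))‖ ^ 2 / ((c i - a i : ℕ) : ℝ) ^ 2 with hS
  have hScont : ∀ i h, Continuous (S i h) := by
    intro i h
    refine Continuous.div_const ?_ _
    refine ((continuous_finsetSum _ fun m _ => ?_).norm).pow 2
    refine continuous_ee.comp ?_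
    fun_prop
  set G : ℝ → ℝ := fun ξ => ∑ i ∈ Finset.range q, ∑ h ∈ Finset.Icc 1 q, S i h ξ with hG
  have hGcont : Continuous G :=
    continuous_finsetSum _ fun i _ => continuous_finsetSum _ fun h _ => hScont i h
  have hSnn : ∀ i h ξ, 0 ≤ S i h ξ := fun i h ξ => by
    simp only [hS]
    positivity
  have hlow : ∀ ξ ∈ Set.Icc u (u + w), 1 / (4 * (q : ℝ) ^ 2) ≤ G ξ := by
    intro ξ hξ
    obtain ⟨i, hi, h, h1, h2, h3⟩ := hcon ξ hξ
    have e1 : S i h ξ ≤ G ξ := by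
      have f1 : S i h ξ ≤ ∑ h ∈ Finset.Icc 1 q, S i h ξ :=
        Finset.single_le_sum (f := fun h => S i h ξ) (fun h _ => hSnn i h ξ)
          (Finset.mem_Icc.2 ⟨h1, h2⟩)
      refine f1.trans ?_
      exact Finset.single_le_sum (f := fun i => ∑ h ∈ Finset.Icc 1 q, S i h ξ)
        (fun i _ => Finset.sum_nonneg fun h _ => hSnn i h ξ) (Finset.mem_range.2 hi)
    refine le_trans ?_ e1
    have hdi := hd0 i hi
    simp only [hS]
    rw [div_le_div_iff₀ (by positivity) (by positivity)]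
    have h4 : (((c i - a i : ℕ) : ℝ) / (2 * q)) ^ 2 ≤
        ‖∑ m ∈ Finset.Ico (a i) (c i), ee (h * (ξ * α i ^ m))‖ ^ 2 :=
      pow_le_pow_left₀ (by positivity) h3.le 2
    rw [div_pow, div_le_iff₀ (by positivity)] at h4
    linarith
  have hI1 : w * (1 / (4 * (q : ℝ) ^ 2)) ≤ ∫ ξ in u..(u + w), G ξ := by
    have h1 : ∫ ξ in u..(u + w), (1 / (4 * (q : ℝ) ^ 2)) ≤ ∫ ξ in u..(u + w), G ξ := by
      refine intervalIntegral.integral_mono_on (by linarith) ?_ (hGcont.intervalIntegrable _ _) hlow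
      exact intervalIntegrable_const
    rw [intervalIntegral.integral_const, smul_eq_mul] at h1
    linarith
  have hI2 : ∫ ξ in u..(u + w), G ξ ≤ w * (1 / (8 * (q : ℝ) ^ 2)) := by
    have e1 : ∫ ξ in u..(u + w), G ξ = ∑ i ∈ Finset.range q, ∑ h ∈ Finset.Icc 1 q,
        ∫ ξ in u..(u + w), S i h ξ := by
      rw [hG, intervalIntegral.integral_finsetSum fun i _ =>
        (continuous_finsetSum _ fun h _ => hScont i h).intervalIntegrable _ _]
      refine Finset.sum_congr rfl fun i _ => ?_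
      exact intervalIntegral.integral_finsetSum fun h _ => (hScont i h).intervalIntegrable _ _
    rw [e1]
    have e2 : ∀ i ∈ Finset.range q, ∀ h ∈ Finset.Icc 1 q,
        ∫ ξ in u..(u + w), S i h ξ ≤ w / (8 * (q : ℝ) ^ 4) := by
      intro i hi h hh
      have hi' := Finset.mem_range.1 hi
      have hdi := hd0 i hi'
      have hdd := hd i hi'
      simp only [hS]
      rw [intervalIntegral.integral_div]
      have e3 := second_moment (hα i) (a i) (c i) h (Finset.mem_Icc.1 hh).1 u w (haw i)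
      refine (div_le_div_of_nonneg_right e3 (by positivity)).trans ?_
      have e4 : w * ((c i - a i : ℕ) : ℝ) * (1 + 1 / (1 - |α i|⁻¹) ^ 2) / ((c i - a i : ℕ) : ℝ) ^ 2 =
          w * (CC (α i) / ((c i - a i : ℕ) : ℝ)) := by
        rw [CC]
        field_simp
      rw [e4]
      have e5 : CC (α i) / ((c i - a i : ℕ) : ℝ) ≤ 1 / (8 * (q : ℝ) ^ 4) := by
        rw [div_le_div_iff₀ hdi (by positivity)]
        linarith
      calc w * (CC (α i) / ((c i - a i : ℕ) : ℝ)) ≤ w * (1 / (8 * (q : ℝ) ^ 4)) :=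
            mul_le_mul_of_nonneg_left e5 hw.le
        _ = _ := by ring
    refine (Finset.sum_le_sum fun i hi => Finset.sum_le_sum fun h hh => e2 i hi h hh).trans ?_
    rw [Finset.sum_const, Finset.sum_const, Finset.card_range, Nat.card_Icc, nsmul_eq_mul,
      nsmul_eq_mul]
    have : ((q + 1 - 1 : ℕ) : ℝ) = q := by rw [Nat.add_sub_cancel]
    rw [this]
    apply le_of_eq
    field_simp
  have hlt : w * (1 / (8 * (q : ℝ) ^ 2)) < w * (1 / (4 * (q : ℝ) ^ 2)) := by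
    refine mul_lt_mul_of_pos_left ?_ hw
    rw [div_lt_div_iff₀ (by positivity) (by positivity)]
    nlinarith [sq_nonneg (q : ℝ), pow_pos hq0 2]
  linarith

theorem ee_lip (s t : ℝ) : ‖ee s - ee t‖ ≤ 2 * π * |s - t| := by
  have h1 : ee s - ee t = ee t * (Complex.exp (Complex.I * ((2 * π * (s - t) : ℝ) : ℂ)) - 1) := by
    rw [mul_sub, mul_one, ee, ee, ← Complex.exp_add]
    congr 2
    push_cast
    ring
  rw [h1, norm_mul, norm_ee, one_mul]
  refine Real.norm_exp_I_mul_ofReal_sub_one_le.trans (le_of_eq ?_)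
  rw [Real.norm_eq_abs, abs_mul, abs_of_pos (by positivity)]

/-- The constant of the perturbation bound. -/
noncomputable def EE (q : ℕ) (α : ℝ) : ℝ := 4 * π * q * (|α| / (|α| - 1))

theorem pert {α b : ℝ} (hα : 1 < |α|) (hb : 1 < b) (q h n' a : ℕ) (hh : h ≤ q) (ξ ξ' : ℝ)
    (hξ : |ξ' - ξ| ≤ 2 / b ^ n') :
    ‖∑ m ∈ Finset.Ico a (tau |α| b n'), ee (h * (ξ' * α ^ m))‖ ≤
      ‖∑ m ∈ Finset.Ico a (tau |α| b n'), ee (h * (ξ * α ^ m))‖ + EE q α := by
  have hb0 : 0 < b ^ n' := by positivity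
  have hα1 : 0 < |α| - 1 := by linarith
  have h1 : ‖∑ m ∈ Finset.Ico a (tau |α| b n'), ee (h * (ξ' * α ^ m)) -
      ∑ m ∈ Finset.Ico a (tau |α| b n'), ee (h * (ξ * α ^ m))‖ ≤ EE q α := by
    rw [← Finset.sum_sub_distrib]
    refine (norm_sum_le _ _).trans ?_
    have h2 : ∀ m ∈ Finset.Ico a (tau |α| b n'),
        ‖ee (h * (ξ' * α ^ m)) - ee (h * (ξ * α ^ m))‖ ≤ (4 * π * q / b ^ n') * |α| ^ m := by
      intro m _
      refine (ee_lip _ _).trans ?_
      have e1 : (h : ℝ) * (ξ' * α ^ m) - h * (ξ * α ^ m) = h * (ξ' - ξ) * α ^ m := by ring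
      rw [e1, abs_mul, abs_mul, abs_pow, Nat.abs_cast]
      have e2 : (h : ℝ) ≤ q := by exact_mod_cast hh
      have e3 : 0 ≤ |α| ^ m := by positivity
      have e4 : (h : ℝ) * |ξ' - ξ| ≤ q * (2 / b ^ n') :=
        mul_le_mul e2 hξ (abs_nonneg _) (by positivity)
      calc 2 * π * (h * |ξ' - ξ| * |α| ^ m) = (2 * π * |α| ^ m) * (h * |ξ' - ξ|) := by ring
        _ ≤ (2 * π * |α| ^ m) * (q * (2 / b ^ n')) :=
            mul_le_mul_of_nonneg_left e4 (by positivity)
        _ = _ := by ring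
    refine (Finset.sum_le_sum h2).trans ?_
    rw [← Finset.mul_sum]
    have h3 : ∑ m ∈ Finset.Ico a (tau |α| b n'), |α| ^ m ≤ |α| * b ^ n' / (|α| - 1) := by
      have e1 : ∑ m ∈ Finset.Ico a (tau |α| b n'), |α| ^ m ≤
          ∑ m ∈ Finset.range (tau |α| b n'), |α| ^ m := by
        refine Finset.sum_le_sum_of_subset_of_nonneg ?_ fun m _ _ => by positivity
        intro m hm
        exact Finset.mem_range.2 (Finset.mem_Ico.1 hm).2
      refine e1.trans ?_
      rw [geom_sum_eq hα.ne']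
      refine div_le_div_of_nonneg_right ?_ hα1.le
      have := tau_up hα hb n'
      linarith
    refine (mul_le_mul_of_nonneg_left h3 (by positivity)).trans (le_of_eq ?_)
    rw [EE]
    field_simp
  have h4 := norm_sub_norm_le (∑ m ∈ Finset.Ico a (tau |α| b n'), ee (h * (ξ' * α ^ m)))
    (∑ m ∈ Finset.Ico a (tau |α| b n'), ee (h * (ξ * α ^ m)))
  linarith

theorem EE_nonneg (q : ℕ) {α : ℝ} (hα : 1 < |α|) : 0 ≤ EE q α := by
  have : 0 < |α| - 1 := by linarith
  unfold EE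
  positivity

/-- The basic generic block. -/
theorem Gblock (α : ℕ → ℝ) (hα : ∀ i, 1 < |α i|) {b : ℝ} (hb : 1 < b) (q : ℕ) (hq : 1 ≤ q) :
    ∃ M D : ℕ, 1 ≤ M ∧ (∀ i < q, ∀ n, tau |α i| b (n + M) ≤ tau |α i| b n + D) ∧
      ∀ (n : ℕ) (u : ℝ), ∃ u' : ℝ,
        Set.Icc u' (u' + 2 / b ^ (n + M)) ⊆ Set.Icc u (u + 2 / b ^ n) ∧
        ∀ ξ ∈ Set.Icc u' (u' + 2 / b ^ (n + M)), ∀ i < q, ∀ h : ℕ, 1 ≤ h → h ≤ q →
          ‖∑ m ∈ Finset.Ico (tau |α i| b n) (tau |α i| b (n + M)), ee (h * (ξ * α i ^ m))‖ ≤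
            ((tau |α i| b (n + M) - tau |α i| b n : ℕ) : ℝ) / q := by
  have hq0 : (0 : ℝ) < q := by exact_mod_cast hq
  have hb0 : 0 < b := by linarith
  have hD : ∀ i, ∃ D : ℕ, 8 * (q : ℝ) ^ 4 * CC (α i) ≤ D ∧ 2 * q * EE q (α i) ≤ D := by
    intro i
    obtain ⟨D, hD⟩ := exists_nat_ge (max (8 * (q : ℝ) ^ 4 * CC (α i)) (2 * q * EE q (α i)))
    exact ⟨D, (le_max_left _ _).trans hD, (le_max_right _ _).trans hD⟩
  choose D hD1 hD2 using hD
  have hM : ∀ i, ∃ M : ℕ, |α i| ^ (D i + 1) ≤ b ^ M := by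
    intro i
    obtain ⟨M, hM⟩ := pow_unbounded_of_one_lt (|α i| ^ (D i + 1)) hb
    exact ⟨M, hM.le⟩
  choose Mi hMi using hM
  obtain ⟨M0, hM0⟩ := pow_unbounded_of_one_lt (2 : ℝ) hb
  set M : ℕ := (Finset.range q).sup Mi + M0 + 1 with hMdef
  have hMM : ∀ i < q, |α i| ^ (D i + 1) ≤ b ^ M := by
    intro i hi
    refine (hMi i).trans (pow_le_pow_right₀ hb.le ?_)
    have := Finset.le_sup (f := Mi) (Finset.mem_range.2 hi)
    omega
  have hM2 : 2 ≤ b ^ M := hM0.le.trans (pow_le_pow_right₀ hb.le (by omega))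
  have hD' : ∀ i, ∃ D' : ℕ, |α i| * b ^ M ≤ |α i| ^ D' := by
    intro i
    obtain ⟨D', hD'⟩ := pow_unbounded_of_one_lt (|α i| * b ^ M) (hα i)
    exact ⟨D', hD'.le⟩
  choose D' hD' using hD'
  refine ⟨M, (Finset.range q).sup D', by omega, ?_, ?_⟩
  · intro i hi n
    refine (tau_diff' (hα i) hb (hD' i) n).trans ?_
    exact Nat.add_le_add_left (Finset.le_sup (f := D') (Finset.mem_range.2 hi)) _
  · intro n u
    have hbn : 0 < b ^ n := by positivity
    have hbM : 0 < b ^ M := by positivity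
    have hdiff : ∀ i < q, (D i : ℝ) ≤ ((tau |α i| b (n + M) - tau |α i| b n : ℕ) : ℝ) := by
      intro i hi
      have := tau_diff (hα i) hb (hMM i hi) n
      exact_mod_cast (by omega : D i ≤ tau |α i| b (n + M) - tau |α i| b n)
    obtain ⟨ξ₀, hξ₀, hgood⟩ := exists_good α hα q hq (fun i => tau |α i| b n)
      (fun i => tau |α i| b (n + M)) u (1 / b ^ n) (by positivity)
      (fun i => by
        have := tau_spec (hα i) b n
        rw [mul_one_div, le_div_iff₀ hbn, one_mul]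
        exact this)
      (fun i hi => (hD1 i).trans (hdiff i hi))
    refine ⟨ξ₀, ?_, ?_⟩
    · intro ξ hξ
      have h1 : 2 / b ^ (n + M) ≤ 1 / b ^ n := by
        rw [pow_add, div_le_div_iff₀ (by positivity) hbn]
        nlinarith
      have h2 : 2 / b ^ n = 1 / b ^ n + 1 / b ^ n := by ring
      constructor
      · exact hξ₀.1.trans hξ.1
      · linarith [hξ.2, hξ₀.2]
    · intro ξ hξ i hi h h1 h2
      have h3 : |ξ - ξ₀| ≤ 2 / b ^ (n + M) := by
        rw [abs_le]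
        have : 0 ≤ 2 / b ^ (n + M) := by positivity
        constructor <;> linarith [hξ.1, hξ.2]
      refine (pert (hα i) hb q h (n + M) (tau |α i| b n) h2 ξ₀ ξ h3).trans ?_
      have h4 := hgood i hi h h1 h2
      have h5 := hdiff i hi
      have h6 := hD2 i
      set d : ℝ := ((tau |α i| b (n + M) - tau |α i| b n : ℕ) : ℝ) with hd
      have h7 : EE q (α i) ≤ d / (2 * q) := by
        rw [le_div_iff₀ (by positivity)]
        linarith
      have h8 : d / q = d / (2 * q) + d / (2 * q) := by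
        field_simp
        ring
      rw [h8]
      exact add_le_add h4 h7

/-- Repeated generic blocks. -/
theorem Grep (α : ℕ → ℝ) (hα : ∀ i, 1 < |α i|) {b : ℝ} (hb : 1 < b) (q : ℕ) (hq : 1 ≤ q) :
    ∃ M D : ℕ, 1 ≤ M ∧ ∀ (T n : ℕ) (u : ℝ), ∃ u' : ℝ,
        Set.Icc u' (u' + 2 / b ^ (n + M * T)) ⊆ Set.Icc u (u + 2 / b ^ n) ∧
        ∀ ξ ∈ Set.Icc u' (u' + 2 / b ^ (n + M * T)), ∀ i < q, ∀ h : ℕ, 1 ≤ h → h ≤ q →
          ∀ N, tau |α i| b n ≤ N → N ≤ tau |α i| b (n + M * T) →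
          ‖∑ m ∈ Finset.Ico (tau |α i| b n) N, ee (h * (ξ * α i ^ m))‖ ≤
            ((N - tau |α i| b n : ℕ) : ℝ) / q + D := by
  obtain ⟨M, D, hM, hD, hG⟩ := Gblock α hα hb q hq
  have hq0 : (0 : ℝ) < q := by exact_mod_cast hq
  refine ⟨M, D, hM, fun T n u => ?_⟩
  have key : ∀ T : ℕ, ∃ u' : ℝ,
      Set.Icc u' (u' + 2 / b ^ (n + M * T)) ⊆ Set.Icc u (u + 2 / b ^ n) ∧
      ∀ ξ ∈ Set.Icc u' (u' + 2 / b ^ (n + M * T)), ∀ i < q, ∀ h : ℕ, 1 ≤ h → h ≤ q →
        (‖∑ m ∈ Finset.Ico (tau |α i| b n) (tau |α i| b (n + M * T)), ee (h * (ξ * α i ^ m))‖ ≤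
          ((tau |α i| b (n + M * T) - tau |α i| b n : ℕ) : ℝ) / q) ∧
        ∀ N, tau |α i| b n ≤ N → N ≤ tau |α i| b (n + M * T) →
        ‖∑ m ∈ Finset.Ico (tau |α i| b n) N, ee (h * (ξ * α i ^ m))‖ ≤
          ((N - tau |α i| b n : ℕ) : ℝ) / q + D := by
    intro T
    induction T with
    | zero =>
      refine ⟨u, by simp, fun ξ _ i _ h _ _ => ⟨by simp, fun N h1 h2 => ?_⟩⟩
      have : N = tau |α i| b n := le_antisymm (by simpa using h2) h1
      rw [this]
      simp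
    | succ T ih =>
      obtain ⟨u₁, hu₁, hξ₁⟩ := ih
      obtain ⟨u₂, hu₂, hξ₂⟩ := hG (n + M * T) u₁
      have e1 : n + M * (T + 1) = n + M * T + M := by ring
      rw [e1]
      refine ⟨u₂, hu₂.trans hu₁, fun ξ hξ i hi h h1 h2 => ?_⟩
      obtain ⟨g1, g2⟩ := hξ₁ ξ (hu₂ hξ) i hi h h1 h2
      have g3 := hξ₂ ξ hξ i hi h h1 h2
      have m1 := tau_mono (hα i) hb (Nat.le_add_right n (M * T))
      have m2 := tau_mono (hα i) hb (Nat.le_add_right (n + M * T) M)
      constructor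
      · rw [← Finset.sum_Ico_consecutive _ m1 m2]
        refine (norm_add_le _ _).trans ?_
        refine (add_le_add g1 g3).trans (le_of_eq ?_)
        rw [← add_div, ← Nat.cast_add]
        congr 2
        omega
      · intro N hN1 hN2
        rcases le_total N (tau |α i| b (n + M * T)) with hN | hN
        · exact g2 N hN1 hN
        · rw [← Finset.sum_Ico_consecutive _ m1 hN]
          refine (norm_add_le _ _).trans ?_
          have g4 : ‖∑ m ∈ Finset.Ico (tau |α i| b (n + M * T)) N, ee (h * (ξ * α i ^ m))‖ ≤ D := by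
            refine (norm_sum_le _ _).trans ?_
            simp_rw [norm_ee]
            rw [Finset.sum_const, Nat.card_Ico, nsmul_eq_mul, mul_one]
            have := hD i hi (n + M * T)
            exact_mod_cast (by omega : N - tau |α i| b (n + M * T) ≤ D)
          refine add_le_add (g1.trans ?_) g4
          refine div_le_div_of_nonneg_right ?_ hq0.le
          exact_mod_cast (by omega : tau |α i| b (n + M * T) - tau |α i| b n ≤ N - tau |α i| b n)
  obtain ⟨u', h1, h2⟩ := key T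
  exact ⟨u', h1, fun ξ hξ i hi h h3 h4 => (h2 ξ hξ i hi h h3 h4).2⟩

end Pool.Agent.H534R3.UDist
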