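import Pool.Agent.H41.Lib.H534R3.Rota
import Pool.Agent.H41.Lib.H534R3.Blk
/-! # Random sums with Riesz product spectrum -/

set_option autoImplicit false

open MeasureTheory Filter Topology
open scoped Real

namespace Pool.Agent.H534R3.Rota

open Pool.Agent.H534R3.UDist

/-- The square of the spectrum of a random sum. -/
noncomputable def QQ (B R : ℕ) (x : ℝ) : ℝ :=
  ∏ r ∈ Finset.range R, (1 + Real.cos (2 * π * (x / (B : ℝ) ^ (r + 1)))) / 2

theorem fac_nonneg (v : ℝ) : 0 ≤ (1 + Real.cos v) / 2 := by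
  have := Real.neg_one_le_cos v
  linarith

theorem fac_le (v : ℝ) : (1 + Real.cos v) / 2 ≤ 1 := by
  have := Real.cos_le_one v
  linarith

theorem QQ_nonneg (B R : ℕ) (x : ℝ) : 0 ≤ QQ B R x := Finset.prod_nonneg fun _ _ => fac_nonneg _

theorem QQ_le_one (B R : ℕ) (x : ℝ) : QQ B R x ≤ 1 :=
  Finset.prod_le_one (fun _ _ => fac_nonneg _) fun _ _ => fac_le _

theorem prod_mid (f : ℕ → ℝ) (h0 : ∀ r, 0 ≤ f r) (h1 : ∀ r, f r ≤ 1) (m L m' : ℕ) :
    ∏ r ∈ Finset.range (m + L + m'), f r ≤ ∏ i ∈ Finset.range L, f (m + i) := by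
  rw [Finset.prod_range_add, Finset.prod_range_add]
  have e1 : 0 ≤ ∏ x ∈ Finset.range L, f (m + x) := Finset.prod_nonneg fun _ _ => h0 _
  have e2 : ∏ x ∈ Finset.range m, f x ≤ 1 := Finset.prod_le_one (fun _ _ => h0 _) fun _ _ => h1 _
  have e3 : ∏ x ∈ Finset.range m', f (m + L + x) ≤ 1 :=
    Finset.prod_le_one (fun _ _ => h0 _) fun _ _ => h1 _
  have e4 : 0 ≤ ∏ x ∈ Finset.range m, f x := Finset.prod_nonneg fun _ _ => h0 _
  calc (∏ x ∈ Finset.range m, f x) * (∏ x ∈ Finset.range L, f (m + x)) *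
        ∏ x ∈ Finset.range m', f (m + L + x)
      ≤ (∏ x ∈ Finset.range m, f x) * (∏ x ∈ Finset.range L, f (m + x)) * 1 :=
        mul_le_mul_of_nonneg_left e3 (mul_nonneg e4 e1)
    _ = (∏ x ∈ Finset.range m, f x) * (∏ x ∈ Finset.range L, f (m + x)) := mul_one _
    _ ≤ 1 * (∏ x ∈ Finset.range L, f (m + x)) := mul_le_mul_of_nonneg_right e2 e1
    _ = _ := one_mul _

theorem QQ_le_PP (B R L : ℕ) (hB : 2 ≤ B) (x : ℝ) (h1 : (B : ℝ) ^ L ≤ x) (h2 : x < (B : ℝ) ^ R) :
    QQ B R x ≤ PP B L ((B : ℝ) ^ Int.fract (Real.logb B x)) := by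
  have hB1 : (1 : ℝ) < B := by exact_mod_cast (by omega : 1 < B)
  have hB0 : (0 : ℝ) < B := by linarith
  have hx : 0 < x := lt_of_lt_of_le (by positivity) h1
  set s := Real.logb B x with hs
  have hs1 : (L : ℝ) ≤ s := by
    rw [hs, Real.le_logb_iff_rpow_le hB1 hx, Real.rpow_natCast]
    exact h1
  have hs2 : s < R := by
    rw [hs, Real.logb_lt_iff_lt_rpow hB1 hx, Real.rpow_natCast]
    exact h2
  obtain ⟨q, hq⟩ : ∃ q : ℕ, ⌊s⌋ = q := by
    refine ⟨⌊s⌋.toNat, ?_⟩
    have : 0 ≤ ⌊s⌋ := Int.floor_nonneg.2 (le_trans (Nat.cast_nonneg _) hs1)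
    omega
  have hLq : L ≤ q := by
    have h3 : (L : ℤ) ≤ ⌊s⌋ := Int.le_floor.2 (by exact_mod_cast hs1)
    rw [hq] at h3
    exact_mod_cast h3
  have hqR : q ≤ R := by
    have h3 : (⌊s⌋ : ℝ) ≤ s := Int.floor_le s
    rw [hq] at h3
    have h4 : ((q : ℤ) : ℝ) < R := lt_of_le_of_lt h3 hs2
    have h5 : (q : ℝ) < R := by exact_mod_cast h4
    exact_mod_cast h5.le
  set t : ℝ := (B : ℝ) ^ Int.fract s with ht
  have hxt : x = (B : ℝ) ^ q * t := by
    have h3 : x = (B : ℝ) ^ s := (Real.rpow_logb hB0 hB1.ne' hx).symm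
    have h4 : s = (q : ℝ) + Int.fract s := by
      have h5 := Int.floor_add_fract s
      rw [hq] at h5
      exact_mod_cast h5.symm
    rw [h3]
    conv_lhs => rw [h4]
    rw [Real.rpow_add hB0, Real.rpow_natCast]
  set f : ℕ → ℝ := fun r => (1 + Real.cos (2 * π * (x / (B : ℝ) ^ (r + 1)))) / 2 with hf
  have hR : R = (q - L) + L + (R - q) := by omega
  have h3 : QQ B R x ≤ ∏ i ∈ Finset.range L, f (q - L + i) := by
    rw [QQ]
    conv_lhs => rw [hR]
    exact prod_mid f (fun _ => fac_nonneg _) (fun _ => fac_le _) _ _ _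
  refine h3.trans (le_of_eq ?_)
  rw [PP, ← Finset.prod_range_reflect]
  refine Finset.prod_congr rfl fun i hi => ?_
  have hi' := Finset.mem_range.1 hi
  simp only [hf]
  have h4 : x / (B : ℝ) ^ (q - L + (L - 1 - i) + 1) = (B : ℝ) ^ i * t := by
    rw [div_eq_iff (by positivity), hxt]
    have : q = i + (q - L + (L - 1 - i) + 1) := by omega
    conv_lhs => rw [this]
    rw [pow_add]
    ring
  rw [h4]

theorem ee_add (s t : ℝ) : ee (s + t) = ee s * ee t := by
  rw [ee, ee, ee, ← Complex.exp_add]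
  congr 1
  push_cast
  ring

theorem ee_zero : ee 0 = 1 := by simp [ee]

theorem ee_sum {ι : Type} (s : Finset ι) (f : ι → ℝ) : ee (∑ i ∈ s, f i) = ∏ i ∈ s, ee (f i) := by
  classical
  induction s using Finset.induction_on with
  | empty => simp [ee_zero]
  | insert i s hi ih => rw [Finset.sum_insert hi, Finset.prod_insert hi, ee_add, ih]

theorem ee_re (t : ℝ) : (ee t).re = Real.cos (2 * π * t) := by
  rw [ee]
  have : (2 * π * Complex.I * t : ℂ) = ((2 * π * t : ℝ) : ℂ) * Complex.I := by push_cast; ring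
  rw [this, Complex.exp_ofReal_mul_I_re]

theorem ee_neg (t : ℝ) : ee (-t) = (starRingEnd ℂ) (ee t) := by
  rw [ee, ee, ← Complex.exp_conj]
  congr 1
  simp only [map_mul, Complex.conj_ofReal, Complex.conj_I, map_ofNat]
  push_cast
  ring

theorem norm_one_add_ee (t : ℝ) : ‖1 + ee t‖ ^ 2 = 4 * ((1 + Real.cos (2 * π * t)) / 2) := by
  rw [← Complex.normSq_eq_norm_sq, Complex.normSq_add, Complex.normSq_one,
    Complex.normSq_eq_norm_sq, norm_ee, one_mul, Complex.conj_re, ee_re]
  ring

/-- The exponential sums over the random sums. -/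
theorem norm_random (B R : ℕ) (X c w lam : ℝ) (hlam : 0 < lam) :
    ‖∑ S ∈ (Finset.range R).powerset,
      ee (X * (c + ∑ r ∈ S, w / (B : ℝ) ^ (r + 1)))‖ ≤ 2 ^ R * (lam + QQ B R (X * w) / lam) := by
  have h1 : ∀ S ∈ (Finset.range R).powerset, ee (X * (c + ∑ r ∈ S, w / (B : ℝ) ^ (r + 1))) =
      ee (X * c) * ∏ r ∈ S, ee (X * w / (B : ℝ) ^ (r + 1)) := by
    intro S _
    rw [mul_add, ee_add, Finset.mul_sum, ee_sum]
    congr 1
    refine Finset.prod_congr rfl fun r _ => ?_
    rw [mul_div_assoc]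
  rw [Finset.sum_congr rfl h1, ← Finset.mul_sum, ← Finset.prod_one_add, norm_mul, norm_ee, one_mul,
    norm_prod]
  set P : ℝ := ∏ i ∈ Finset.range R, ‖1 + ee (X * w / (B : ℝ) ^ (i + 1))‖ with hP
  have hP0 : 0 ≤ P := Finset.prod_nonneg fun _ _ => norm_nonneg _
  have h2 : P ^ 2 = (2 ^ R) ^ 2 * QQ B R (X * w) := by
    rw [hP, ← Finset.prod_pow, Finset.prod_congr rfl fun i _ => norm_one_add_ee _,
      Finset.prod_mul_distrib, Finset.prod_const, Finset.card_range, QQ]
    congr 1
    rw [← pow_mul, mul_comm R 2, pow_mul]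
    norm_num
  have hR : (0 : ℝ) < 2 ^ R := by positivity
  have hQ := QQ_nonneg B R (X * w)
  set p : ℝ := P / 2 ^ R with hp
  have hp0 : 0 ≤ p := div_nonneg hP0 hR.le
  have hPp : P = 2 ^ R * p := by
    rw [hp]
    field_simp
  have hp2 : p ^ 2 = QQ B R (X * w) := by
    rw [hPp, mul_pow] at h2
    exact mul_left_cancel₀ (by positivity) h2
  rw [hPp, ← hp2]
  refine mul_le_mul_of_nonneg_left ?_ hR.le
  rcases le_total p lam with h | h
  · have : 0 ≤ p ^ 2 / lam := by positivity
    linarith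
  · have h3 : p ≤ p ^ 2 / lam := by
      rw [le_div_iff₀ hlam]
      nlinarith
    linarith

theorem sq_sum (f : ℕ → ℝ) (M : ℕ) :
    ‖∑ m ∈ Finset.range M, ee (f m)‖ ^ 2 =
      M + 2 * ∑ m ∈ Finset.range M, ∑ m' ∈ Finset.range m, (ee (f m - f m')).re := by
  induction M with
  | zero => simp
  | succ M ih =>
    have h1 : (ee (f M) * (starRingEnd ℂ) (∑ m ∈ Finset.range M, ee (f m))).re =
        ∑ m' ∈ Finset.range M, (ee (f M - f m')).re := by
      rw [map_sum, Finset.mul_sum, Complex.re_sum]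
      refine Finset.sum_congr rfl fun m' _ => ?_
      rw [← ee_neg, ← ee_add, ← sub_eq_add_neg]
    rw [Finset.sum_range_succ, Finset.sum_range_succ (fun m => ∑ m' ∈ Finset.range m,
      (ee (f m - f m')).re), ← Complex.normSq_eq_norm_sq, add_comm, Complex.normSq_add,
      Complex.normSq_eq_norm_sq, Complex.normSq_eq_norm_sq, ih, norm_ee, h1]
    push_cast
    ring

/-- The existence of a sum of the special form with small exponential sums. -/
theorem riesz_good (a B q : ℕ) (ha : 2 ≤ a) (hB : 3 ≤ B) (hq : 1 ≤ q)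
    (hθ : Irrational (Real.logb B a)) :
    ∃ M0 : ℕ, ∀ (A M R : ℕ) (u0 w : ℝ), 0 < w → 1 ≤ (a : ℝ) ^ A * w →
      (a : ℝ) ^ (A + M) * w ≤ a * (B : ℝ) ^ R → M0 ≤ M →
      ∃ S ⊆ Finset.range R, ∀ h : ℕ, 1 ≤ h → h ≤ q →
        ‖∑ m ∈ Finset.Ico A (A + M),
          ee (h * ((u0 + ∑ r ∈ S, w / (B : ℝ) ^ (r + 1)) * (a : ℝ) ^ m))‖ ≤ (M : ℝ) / (2 * q) := by
  have hq0 : (0 : ℝ) < q := by exact_mod_cast hq
  have hB1 : (1 : ℝ) < B := by exact_mod_cast (by omega : 1 < B)
  have hB0 : (0 : ℝ) < B := by linarith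
  have ha2 : (2 : ℝ) ≤ a := by exact_mod_cast ha
  have ha1 : (1 : ℝ) < a := by linarith
  have ha0 : (0 : ℝ) < a := by linarith
  set lam : ℝ := 1 / (64 * (q : ℝ) ^ 3) with hlam
  have hlam0 : 0 < lam := by positivity
  obtain ⟨L, C, hC0, hC⟩ := avg_small B hB (Real.logb B a) hθ (lam ^ 2) (by positivity)
  obtain ⟨i0, hi0⟩ := pow_unbounded_of_one_lt ((B : ℝ) ^ L) ha1
  obtain ⟨c0, hc0⟩ := pow_unbounded_of_one_lt ((q : ℝ) * a) ha1
  set K : ℝ := i0 + c0 + C / lam with hK
  have hK0 : 0 ≤ K := by positivity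
  obtain ⟨M0, hM0⟩ := exists_nat_gt (16 * (q : ℝ) ^ 3 * (3 + 2 * K))
  refine ⟨M0, fun A M R u0 w hw hA hAM hM => ?_⟩
  have hMr : 16 * (q : ℝ) ^ 3 * (3 + 2 * K) < M := lt_of_lt_of_le hM0 (by exact_mod_cast hM)
  have hM00 : (0 : ℝ) < M := lt_of_le_of_lt (by positivity) hMr
  by_contra hcon
  push Not at hcon
  set ξ : Finset ℕ → ℝ := fun S => u0 + ∑ r ∈ S, w / (B : ℝ) ^ (r + 1) with hξ
  -- the moment for one frequency
  have key : ∀ h : ℕ, 1 ≤ h → h ≤ q → ∑ S ∈ (Finset.range R).powerset,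
      ‖∑ m ∈ Finset.Ico A (A + M), ee (h * (ξ S * (a : ℝ) ^ m))‖ ^ 2 ≤
        2 ^ R * (1 / (8 * (q : ℝ) ^ 3) * (M : ℝ) ^ 2) := by
    intro h hh1 hhq
    have hh1' : (1 : ℝ) ≤ h := by exact_mod_cast hh1
    have hhq' : (h : ℝ) ≤ q := by exact_mod_cast hhq
    have hR0 : (0 : ℝ) < 2 ^ R := by positivity
    have hcard : ((Finset.range R).powerset.card : ℝ) = 2 ^ R := by
      rw [Finset.card_powerset, Finset.card_range]
      push_cast
      rfl
    have e1 : ∀ S ∈ (Finset.range R).powerset,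
        ‖∑ m ∈ Finset.Ico A (A + M), ee (h * (ξ S * (a : ℝ) ^ m))‖ ^ 2 =
        M + 2 * ∑ m ∈ Finset.range M, ∑ m' ∈ Finset.range m,
          (ee (h * ((a : ℝ) ^ (A + m) - (a : ℝ) ^ (A + m')) * ξ S)).re := by
      intro S _
      rw [Finset.sum_Ico_eq_sum_range, Nat.add_sub_cancel_left, sq_sum]
      congr 2
      refine Finset.sum_congr rfl fun m _ => Finset.sum_congr rfl fun m' _ => ?_
      congr 2
      ring
    rw [Finset.sum_congr rfl e1, Finset.sum_add_distrib, Finset.sum_const, nsmul_eq_mul, hcard,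
      ← Finset.mul_sum, Finset.sum_comm]
    have e2 : ∀ m ∈ Finset.range M, ∑ S ∈ (Finset.range R).powerset, ∑ m' ∈ Finset.range m,
        (ee (h * ((a : ℝ) ^ (A + m) - (a : ℝ) ^ (A + m')) * ξ S)).re =
        ∑ m' ∈ Finset.range m, (∑ S ∈ (Finset.range R).powerset,
          ee (h * ((a : ℝ) ^ (A + m) - (a : ℝ) ^ (A + m')) * ξ S)).re := by
      intro m _
      rw [Finset.sum_comm]
      refine Finset.sum_congr rfl fun m' _ => ?_
      rw [Complex.re_sum]
    rw [Finset.sum_congr rfl e2]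
    -- the bound of the correlations
    set s₀ : ℕ → ℝ := fun d => Real.logb B (h * ((a : ℝ) ^ d - 1) * ((a : ℝ) ^ A * w)) with hs₀
    set G : ℕ → ℕ → ℝ := fun d i => if d = 0 then 1 else
      lam + PP B L ((B : ℝ) ^ Int.fract (s₀ d + i * Real.logb B a)) / lam +
        ((if i < i0 then 1 else 0) + (if M < i + d + c0 then 1 else 0)) with hG
    have hG0 : ∀ d i, 0 ≤ G d i := by
      intro d i
      simp only [hG]
      have := PP_nonneg B L ((B : ℝ) ^ Int.fract (s₀ d + i * Real.logb B a))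
      split_ifs <;> positivity
    have e3 : ∀ m ∈ Finset.range M, ∑ m' ∈ Finset.range m, (∑ S ∈ (Finset.range R).powerset,
          ee (h * ((a : ℝ) ^ (A + m) - (a : ℝ) ^ (A + m')) * ξ S)).re ≤
        ∑ k ∈ Finset.range (m + 1), 2 ^ R * G k (m - k) := by
      intro m _
      have f1 : ∀ m' ∈ Finset.range m, (∑ S ∈ (Finset.range R).powerset,
          ee (h * ((a : ℝ) ^ (A + m) - (a : ℝ) ^ (A + m')) * ξ S)).re ≤ 2 ^ R * G (m - m') m' := by
        intro m' hm'
        have hm := Finset.mem_range.1 hm'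
        refine (Complex.re_le_norm _).trans ?_
        set X : ℝ := h * ((a : ℝ) ^ (A + m) - (a : ℝ) ^ (A + m')) with hX
        obtain ⟨d, hd⟩ : ∃ d, m - m' = d + 1 := ⟨m - m' - 1, by omega⟩
        have hmd : m = m' + (d + 1) := by omega
        have hXw : X * w = h * ((a : ℝ) ^ (d + 1) - 1) * ((a : ℝ) ^ A * w) * (a : ℝ) ^ m' := by
          rw [hX, hmd]
          ring
        rw [hd]
        simp only [hG, Nat.succ_ne_zero, if_false]
        have hPP := PP_nonneg B L ((B : ℝ) ^ Int.fract (s₀ (d + 1) + m' * Real.logb B a))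
        have htriv : ‖∑ S ∈ (Finset.range R).powerset, ee (X * ξ S)‖ ≤ 2 ^ R * 1 := by
          refine (norm_sum_le _ _).trans ?_
          simp_rw [norm_ee]
          rw [Finset.sum_const, nsmul_eq_mul, hcard]
        have had : (1 : ℝ) ≤ (a : ℝ) ^ (d + 1) - 1 := by
          have : (a : ℝ) ^ 1 ≤ (a : ℝ) ^ (d + 1) := pow_le_pow_right₀ ha1.le (by omega)
          rw [pow_one] at this
          linarith
        have hx0pos : 0 < (h : ℝ) * ((a : ℝ) ^ (d + 1) - 1) * ((a : ℝ) ^ A * w) := by positivity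
        by_cases hi : m' < i0
        · refine htriv.trans (mul_le_mul_of_nonneg_left ?_ hR0.le)
          rw [if_pos hi]
          have : (0 : ℝ) ≤ if M < m' + (d + 1) + c0 then 1 else 0 := by split_ifs <;> norm_num
          have : 0 ≤ PP B L ((B : ℝ) ^ Int.fract (s₀ (d + 1) + m' * Real.logb B a)) / lam := by
            positivity
          linarith
        · by_cases hc : M < m' + (d + 1) + c0
          · refine htriv.trans (mul_le_mul_of_nonneg_left ?_ hR0.le)
            rw [if_pos hc]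
            have : (0 : ℝ) ≤ if m' < i0 then 1 else 0 := by split_ifs <;> norm_num
            have : 0 ≤ PP B L ((B : ℝ) ^ Int.fract (s₀ (d + 1) + m' * Real.logb B a)) / lam := by
              positivity
            linarith
          · rw [if_neg hi, if_neg hc, add_zero, add_zero]
            refine (norm_random B R X u0 w lam hlam0).trans
              (mul_le_mul_of_nonneg_left ?_ hR0.le)
            refine add_le_add le_rfl (div_le_div_of_nonneg_right ?_ hlam0.le)
            have hlow : (B : ℝ) ^ L ≤ X * w := by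
              have g1 : (a : ℝ) ^ i0 ≤ (a : ℝ) ^ m' := pow_le_pow_right₀ ha1.le (not_lt.1 hi)
              have g2 : 1 ≤ (h : ℝ) * ((a : ℝ) ^ (d + 1) - 1) * ((a : ℝ) ^ A * w) := by
                have : 1 ≤ (h : ℝ) * ((a : ℝ) ^ (d + 1) - 1) := by nlinarith
                nlinarith
              rw [hXw]
              have g3 : 0 ≤ (a : ℝ) ^ m' := by positivity
              nlinarith
            have hup : X * w < (B : ℝ) ^ R := by
              have g1 : X * w < q * ((a : ℝ) ^ (A + m) * w) := by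
                rw [hX]
                have g2 : 0 < (a : ℝ) ^ (A + m') := by positivity
                have g3 : 0 < (a : ℝ) ^ (A + m) := by positivity
                have g4 : (h : ℝ) * ((a : ℝ) ^ (A + m) - (a : ℝ) ^ (A + m')) <
                    q * (a : ℝ) ^ (A + m) := by
                  have g5 : (h : ℝ) * ((a : ℝ) ^ (A + m) - (a : ℝ) ^ (A + m')) <
                    h * (a : ℝ) ^ (A + m) := by nlinarith
                  have g6 : (h : ℝ) * (a : ℝ) ^ (A + m) ≤ q * (a : ℝ) ^ (A + m) :=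
                    mul_le_mul_of_nonneg_right hhq' g3.le
                  linarith
                rw [← mul_assoc]
                exact mul_lt_mul_of_pos_right g4 hw
              have g2 : q * ((a : ℝ) ^ (A + m) * w) * (a : ℝ) ^ c0 ≤ (B : ℝ) ^ R * (a : ℝ) ^ c0 := by
                have g3 : (a : ℝ) ^ (A + m) * (a : ℝ) ^ c0 ≤ (a : ℝ) ^ (A + M) := by
                  rw [← pow_add]
                  exact pow_le_pow_right₀ ha1.le (by omega)
                calc q * ((a : ℝ) ^ (A + m) * w) * (a : ℝ) ^ c0 =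
                      (q * w) * ((a : ℝ) ^ (A + m) * (a : ℝ) ^ c0) := by ring
                  _ ≤ (q * w) * (a : ℝ) ^ (A + M) := mul_le_mul_of_nonneg_left g3 (by positivity)
                  _ = q * ((a : ℝ) ^ (A + M) * w) := by ring
                  _ ≤ q * (a * (B : ℝ) ^ R) := mul_le_mul_of_nonneg_left hAM hq0.le
                  _ = (B : ℝ) ^ R * (q * a) := by ring
                  _ ≤ _ := mul_le_mul_of_nonneg_left hc0.le (by positivity)
              have g3 : 0 < (a : ℝ) ^ c0 := by positivity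
              exact lt_of_lt_of_le g1 (le_of_mul_le_mul_right g2 g3)
            have g := QQ_le_PP B R L (by omega) (X * w) hlow hup
            have hlog : Real.logb B (X * w) = s₀ (d + 1) + m' * Real.logb B a := by
              rw [hXw, Real.logb_mul hx0pos.ne' (by positivity), Real.logb_pow]
            rw [hlog] at g
            exact g
      refine (Finset.sum_le_sum f1).trans ?_
      have f2 : ∑ k ∈ Finset.range (m + 1), 2 ^ R * G k (m - k) =
          ∑ m' ∈ Finset.range (m + 1), 2 ^ R * G (m - m') m' := by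
        rw [← Finset.sum_range_reflect]
        refine Finset.sum_congr rfl fun j hj => ?_
        have := Finset.mem_range.1 hj
        have e1 : m + 1 - 1 - j = m - j := by omega
        have e2 : m - (m - j) = j := by omega
        rw [e1, e2]
      rw [f2]
      refine Finset.sum_le_sum_of_subset_of_nonneg ?_ fun m' _ _ => mul_nonneg hR0.le (hG0 _ _)
      exact Finset.range_subset_range.2 (Nat.le_succ m)
    have e4 : ∑ m ∈ Finset.range M, ∑ k ∈ Finset.range (m + 1), 2 ^ R * G k (m - k) =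
        2 ^ R * ∑ d ∈ Finset.range M, ∑ i ∈ Finset.range (M - d), G d i := by
      rw [Finset.mul_sum, Finset.sum_range_diag_flip M fun k i => 2 ^ R * G k i]
      refine Finset.sum_congr rfl fun d _ => ?_
      rw [Finset.mul_sum]
    have e5 : ∀ d ∈ Finset.range M, ∑ i ∈ Finset.range (M - d), G d i ≤
        (if d = 0 then (M : ℝ) else 0) + (2 * lam * M + K) := by
      intro d _
      have hMn : (0 : ℝ) ≤ M := Nat.cast_nonneg _
      by_cases hd : d = 0
      · simp only [hG, hd, if_true]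
        rw [Finset.sum_const, Nat.sub_zero, Finset.card_range, nsmul_eq_mul, mul_one]
        have : 0 ≤ 2 * lam * M + K := by positivity
        linarith
      · simp only [hG, hd, if_false]
        rw [Finset.sum_add_distrib, Finset.sum_add_distrib, Finset.sum_add_distrib, zero_add,
          Finset.sum_const, Finset.card_range, nsmul_eq_mul]
        have g1 := hC (s₀ d) (M - d)
        have g2 : ((M - d : ℕ) : ℝ) ≤ M := by exact_mod_cast Nat.sub_le M d
        have g3 : ∑ i ∈ Finset.range (M - d),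
            PP B L ((B : ℝ) ^ Int.fract (s₀ d + i * Real.logb B a)) / lam ≤ lam * M + C / lam := by
          rw [← Finset.sum_div, div_le_iff₀ hlam0]
          have : (lam * M + C / lam) * lam = lam ^ 2 * M + C := by
            field_simp
          rw [this]
          have : lam ^ 2 * ((M - d : ℕ) : ℝ) ≤ lam ^ 2 * M :=
            mul_le_mul_of_nonneg_left g2 (by positivity)
          linarith
        have g4 : ∑ i ∈ Finset.range (M - d), (if i < i0 then (1 : ℝ) else 0) ≤ i0 := by
          rw [Finset.sum_boole]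
          have : ((Finset.range (M - d)).filter (fun i => i < i0)).card ≤ i0 := by
            refine (Finset.card_le_card (t := Finset.range i0) fun i hi => ?_).trans
              (le_of_eq (Finset.card_range _))
            exact Finset.mem_range.2 (Finset.mem_filter.1 hi).2
          exact_mod_cast this
        have g5 : ∑ i ∈ Finset.range (M - d), (if M < i + d + c0 then (1 : ℝ) else 0) ≤ c0 := by
          rw [Finset.sum_boole]
          have : ((Finset.range (M - d)).filter (fun i => M < i + d + c0)).card ≤ c0 := by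
            refine (Finset.card_le_card (t := Finset.Ico (M - d - c0) (M - d)) fun i hi => ?_).trans ?_
            · have h1 := Finset.mem_range.1 (Finset.mem_filter.1 hi).1
              have h2 := (Finset.mem_filter.1 hi).2
              rw [Finset.mem_Ico]
              omega
            · rw [Nat.card_Ico]
              omega
          exact_mod_cast this
        have g6 : ((M - d : ℕ) : ℝ) * lam ≤ M * lam := mul_le_mul_of_nonneg_right g2 hlam0.le
        rw [hK]
        linarith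
    have e6 : ∑ d ∈ Finset.range M, ∑ i ∈ Finset.range (M - d), G d i ≤
        M + M * (2 * lam * M + K) := by
      refine (Finset.sum_le_sum e5).trans ?_
      rw [Finset.sum_add_distrib, Finset.sum_const, Finset.card_range, nsmul_eq_mul,
        Finset.sum_ite_eq']
      have : (if 0 ∈ Finset.range M then (M : ℝ) else 0) ≤ M := by
        split_ifs
        · exact le_rfl
        · exact Nat.cast_nonneg _
      linarith
    have e7 := (Finset.sum_le_sum e3).trans (le_of_eq e4)
    have e8 : 2 ^ R * ∑ d ∈ Finset.range M, ∑ i ∈ Finset.range (M - d), G d i ≤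
        2 ^ R * (M + M * (2 * lam * M + K)) := mul_le_mul_of_nonneg_left e6 hR0.le
    have e9 : (M : ℝ) + 2 * (M + M * (2 * lam * M + K)) ≤ 1 / (8 * (q : ℝ) ^ 3) * (M : ℝ) ^ 2 := by
      have f1 : 3 + 2 * K ≤ M / (16 * (q : ℝ) ^ 3) := by
        rw [le_div_iff₀ (by positivity)]
        linarith
      have f2 : (M : ℝ) + 2 * (M + M * (2 * lam * M + K)) = M * (3 + 2 * K) + 4 * lam * M ^ 2 := by
        ring
      have f3 : 4 * lam * (M : ℝ) ^ 2 = 1 / (16 * (q : ℝ) ^ 3) * (M : ℝ) ^ 2 := by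
        rw [hlam]
        field_simp
        ring
      have f4 : (M : ℝ) * (3 + 2 * K) ≤ M * (M / (16 * (q : ℝ) ^ 3)) :=
        mul_le_mul_of_nonneg_left f1 hM00.le
      rw [f2, f3]
      refine (add_le_add f4 le_rfl).trans (le_of_eq ?_)
      field_simp
      ring
    calc 2 ^ R * (M : ℝ) + 2 * ∑ m ∈ Finset.range M, ∑ m' ∈ Finset.range m,
          (∑ S ∈ (Finset.range R).powerset,
            ee (h * ((a : ℝ) ^ (A + m) - (a : ℝ) ^ (A + m')) * ξ S)).re
        ≤ 2 ^ R * (M : ℝ) + 2 * (2 ^ R * (M + M * (2 * lam * M + K))) := by linarith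
      _ = 2 ^ R * ((M : ℝ) + 2 * (M + M * (2 * lam * M + K))) := by ring
      _ ≤ _ := mul_le_mul_of_nonneg_left e9 hR0.le
  -- pigeonhole
  have hsum : ∑ h ∈ Finset.Icc 1 q, ∑ S ∈ (Finset.range R).powerset,
      ‖∑ m ∈ Finset.Ico A (A + M), ee (h * (ξ S * (a : ℝ) ^ m))‖ ^ 2 ≤
        q * (2 ^ R * (1 / (8 * (q : ℝ) ^ 3) * (M : ℝ) ^ 2)) := by
    refine (Finset.sum_le_sum fun h hh => key h (Finset.mem_Icc.1 hh).1 (Finset.mem_Icc.1 hh).2).trans ?_
    rw [Finset.sum_const, Nat.card_Icc, nsmul_eq_mul, Nat.add_sub_cancel]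
  rw [Finset.sum_comm] at hsum
  have hlow : ∀ S ∈ (Finset.range R).powerset, ((M : ℝ) / (2 * q)) ^ 2 ≤
      ∑ h ∈ Finset.Icc 1 q,
        ‖∑ m ∈ Finset.Ico A (A + M), ee (h * (ξ S * (a : ℝ) ^ m))‖ ^ 2 := by
    intro S hS
    obtain ⟨h, h1, h2, h3⟩ := hcon S (Finset.mem_powerset.1 hS)
    refine le_trans ?_ (Finset.single_le_sum (f := fun h : ℕ =>
      ‖∑ m ∈ Finset.Ico A (A + M), ee (h * (ξ S * (a : ℝ) ^ m))‖ ^ 2)
      (fun _ _ => by positivity) (Finset.mem_Icc.2 ⟨h1, h2⟩))
    exact pow_le_pow_left₀ (by positivity) h3.le 2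
  have hlow2 := Finset.sum_le_sum hlow
  rw [Finset.sum_const, Finset.card_powerset, Finset.card_range, nsmul_eq_mul] at hlow2
  have h1 := hlow2.trans hsum
  push_cast at h1
  have hR0 : (0 : ℝ) < 2 ^ R := by positivity
  have h2 : (2 : ℝ) ^ R * (M / (2 * q)) ^ 2 = 2 ^ R * ((M : ℝ) ^ 2 / (q : ℝ) ^ 2 * (1 / 4)) := by
    field_simp
    ring
  have h3 : (q : ℝ) * (2 ^ R * (1 / (8 * (q : ℝ) ^ 3) * (M : ℝ) ^ 2)) =
      2 ^ R * ((M : ℝ) ^ 2 / (q : ℝ) ^ 2 * (1 / 8)) := by
    field_simp
  rw [h2, h3] at h1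
  have h4 := le_of_mul_le_mul_left h1 hR0
  have h5 : 0 < (M : ℝ) ^ 2 / (q : ℝ) ^ 2 := by positivity
  linarith

end Pool.Agent.H534R3.Rota
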