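import Pool.Agent.H41.Lib.H534R3.UD
/-! # Averages of Riesz products along irrational rotations -/

set_option autoImplicit false

open MeasureTheory Filter Topology
open scoped Real

namespace Pool.Agent.H534R3.Rota

/-- Sums of a continuous function along a rotation, uniformly in the starting point. -/
theorem rot_span (θ : ℝ) (hθ : Irrational θ) (p : C(UnitAddCircle, ℂ))
    (hp : p ∈ Submodule.span ℂ (Set.range (fourier (T := 1)))) :
    ∃ C : ℝ, ∀ (s : ℝ) (M : ℕ),
      ‖∑ i ∈ Finset.range M, p ((s + i * θ : ℝ) : UnitAddCircle) -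
        (M : ℂ) * ∫ z, p z ∂AddCircle.haarAddCircle‖ ≤ C := by
  induction hp using Submodule.span_induction with
  | mem p hp =>
    obtain ⟨m, rfl⟩ := hp
    have hint : ∫ z, (fourier m : C(UnitAddCircle, ℂ)) z ∂AddCircle.haarAddCircle =
        if m = 0 then 1 else 0 := by
      have e1 : fourierCoeff (T := 1) (fourier m : C(UnitAddCircle, ℂ)) 0 =
          ∫ z, (fourier m : C(UnitAddCircle, ℂ)) z ∂AddCircle.haarAddCircle := by
        simp [fourierCoeff]
      rw [← e1, fourierCoeff_fourier]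
      by_cases hm : m = 0
      · rw [if_pos hm, hm, Pi.single_eq_same]
      · rw [if_neg hm, Pi.single_eq_of_ne (Ne.symm hm)]
    rw [hint]
    by_cases hm : m = 0
    · refine ⟨0, fun s M => ?_⟩
      rw [if_pos hm, hm]
      simp
    · set z : ℂ := (fourier m : C(UnitAddCircle, ℂ)) ((θ : ℝ) : UnitAddCircle) with hz
      have hz1 : z ≠ 1 := by
        intro h
        rw [hz, fourier_coe_apply, Complex.exp_eq_one_iff] at h
        obtain ⟨n, hn⟩ := h
        have hpi : (π : ℂ) ≠ 0 := by exact_mod_cast Real.pi_ne_zero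
        have h2 : ((m : ℝ) * θ : ℝ) = n := by
          have h3 : (2 * π * Complex.I) * ((m : ℂ) * θ) = (2 * π * Complex.I) * n := by
            push_cast at hn
            rw [show (2 * π * Complex.I) * ((m : ℂ) * θ) = 2 * π * Complex.I * m * θ / 1 by ring,
              hn]
            ring
          have h4 : (2 * π * Complex.I : ℂ) ≠ 0 := by
            simp [hpi]
          have h5 := mul_left_cancel₀ h4 h3
          exact_mod_cast h5
        have h6 : Irrational ((m : ℝ) * θ) := hθ.intCast_mul hm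
        rw [h2] at h6
        exact h6 ⟨n, by simp⟩
      refine ⟨2 / ‖z - 1‖, fun s M => ?_⟩
      rw [if_neg hm, mul_zero, sub_zero]
      have h1 : ∀ i : ℕ, (fourier m : C(UnitAddCircle, ℂ)) ((s + i * θ : ℝ) : UnitAddCircle) =
          (fourier m : C(UnitAddCircle, ℂ)) ((s : ℝ) : UnitAddCircle) * z ^ i := by
        intro i
        rw [hz, fourier_coe_apply, fourier_coe_apply, fourier_coe_apply, ← Complex.exp_nat_mul,
          ← Complex.exp_add]
        congr 1
        push_cast
        ring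
      simp_rw [h1]
      rw [← Finset.mul_sum, geom_sum_eq hz1, norm_mul, norm_div]
      have h2 : ∀ x : UnitAddCircle, ‖(fourier m : C(UnitAddCircle, ℂ)) x‖ = 1 := fun x => by
        rw [fourier_apply]
        exact Circle.norm_coe _
      rw [h2, one_mul]
      have h3 : ‖z‖ = 1 := h2 _
      refine div_le_div_of_nonneg_right ?_ (norm_nonneg _)
      refine (norm_sub_le _ _).trans ?_
      rw [norm_pow, h3, one_pow, norm_one]
      norm_num
  | zero =>
    refine ⟨0, fun s M => ?_⟩
    simp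
  | add p q _ _ hp hq =>
    obtain ⟨C₁, h₁⟩ := hp
    obtain ⟨C₂, h₂⟩ := hq
    refine ⟨C₁ + C₂, fun s M => ?_⟩
    have e1 : ∫ z, (p + q) z ∂AddCircle.haarAddCircle =
        ∫ z, p z ∂AddCircle.haarAddCircle + ∫ z, q z ∂(AddCircle.haarAddCircle (T := 1)) := by
      rw [← integral_add]
      · rfl
      · exact (map_continuous p).integrable_of_hasCompactSupport (HasCompactSupport.of_compactSpace _)
      · exact (map_continuous q).integrable_of_hasCompactSupport (HasCompactSupport.of_compactSpace _)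
    rw [e1]
    have e2 : ∑ i ∈ Finset.range M, (p + q) ((s + i * θ : ℝ) : UnitAddCircle) =
        ∑ i ∈ Finset.range M, p ((s + i * θ : ℝ) : UnitAddCircle) +
        ∑ i ∈ Finset.range M, q ((s + i * θ : ℝ) : UnitAddCircle) := by
      rw [← Finset.sum_add_distrib]
      rfl
    rw [e2]
    have e3 : ∀ A B a b : ℂ, A + B - M * (a + b) = (A - M * a) + (B - M * b) := by
      intros
      ring
    rw [e3]
    exact (norm_add_le _ _).trans (add_le_add (h₁ s M) (h₂ s M))
  | smul c p _ hp =>
    obtain ⟨C₁, h₁⟩ := hp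
    refine ⟨‖c‖ * C₁, fun s M => ?_⟩
    have e1 : ∫ z, (c • p) z ∂AddCircle.haarAddCircle =
        c * ∫ z, p z ∂(AddCircle.haarAddCircle (T := 1)) := by
      rw [← integral_const_mul]
      rfl
    rw [e1]
    have e2 : ∑ i ∈ Finset.range M, (c • p) ((s + i * θ : ℝ) : UnitAddCircle) =
        c * ∑ i ∈ Finset.range M, p ((s + i * θ : ℝ) : UnitAddCircle) := by
      rw [Finset.mul_sum]
      rfl
    rw [e2]
    have e3 : ∀ A a : ℂ, c * A - M * (c * a) = c * (A - M * a) := by
      intros
      ring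
    rw [e3, norm_mul]
    exact mul_le_mul_of_nonneg_left (h₁ s M) (norm_nonneg _)

theorem rot_bound (θ : ℝ) (hθ : Irrational θ) (f : UnitAddCircle → ℝ) (hf : Continuous f) (ε : ℝ)
    (hε : ∫ z, f z ∂(AddCircle.haarAddCircle (T := 1)) < ε) :
    ∃ C : ℝ, 0 ≤ C ∧ ∀ (s : ℝ) (M : ℕ),
      ∑ i ∈ Finset.range M, f ((s + i * θ : ℝ) : UnitAddCircle) ≤ ε * M + C := by
  set F : C(UnitAddCircle, ℂ) := ⟨fun z => (f z : ℂ), Complex.continuous_ofReal.comp hf⟩ with hF
  set I : ℝ := ∫ z, f z ∂(AddCircle.haarAddCircle (T := 1)) with hI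
  have hint : ∫ z, F z ∂AddCircle.haarAddCircle = (I : ℂ) := integral_ofReal
  set δ : ℝ := (ε - I) / 4 with hδ
  have hδ0 : 0 < δ := by rw [hδ]; linarith
  have h3 : F ∈ (Submodule.span ℂ (Set.range (fourier (T := 1)))).topologicalClosure := by
    rw [span_fourier_closure_eq_top]
    trivial
  have h4 : F ∈ closure ((Submodule.span ℂ (Set.range (fourier (T := 1))) : Submodule ℂ
      C(UnitAddCircle, ℂ)) : Set C(UnitAddCircle, ℂ)) := h3
  rw [Metric.mem_closure_iff] at h4
  obtain ⟨p, hp, hFp⟩ := h4 δ hδ0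
  obtain ⟨C, hC⟩ := rot_span θ hθ p hp
  have hpt : ∀ z, ‖F z - p z‖ ≤ δ := fun z => by
    have := ContinuousMap.norm_coe_le_norm (F - p) z
    rw [← dist_eq_norm] at this
    exact this.trans (by rw [dist_eq_norm] at hFp ⊢; exact hFp.le)
  have hC0 : 0 ≤ C := (norm_nonneg _).trans (hC 0 0)
  refine ⟨C, hC0, fun s M => ?_⟩
  have h7 : ‖(∑ i ∈ Finset.range M, F ((s + i * θ : ℝ) : UnitAddCircle)) -
      (∑ i ∈ Finset.range M, p ((s + i * θ : ℝ) : UnitAddCircle))‖ ≤ δ * M := by
    rw [← Finset.sum_sub_distrib]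
    refine (norm_sum_le _ _).trans ?_
    refine (Finset.sum_le_sum fun n _ => hpt _).trans ?_
    rw [Finset.sum_const, Finset.card_range, nsmul_eq_mul, mul_comm]
  have h8 : ‖(∫ z, p z ∂AddCircle.haarAddCircle) - ∫ z, F z ∂(AddCircle.haarAddCircle (T := 1))‖
      ≤ δ := by
    rw [← integral_sub]
    · refine (norm_integral_le_of_norm_le_const (C := δ) (ae_of_all _ fun z => ?_)).trans ?_
      · rw [norm_sub_rev]
        exact hpt z
      · simp
    · exact (map_continuous p).integrable_of_hasCompactSupport (HasCompactSupport.of_compactSpace _)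
    · exact (map_continuous F).integrable_of_hasCompactSupport (HasCompactSupport.of_compactSpace _)
  rw [hint] at h8
  have h9 := hC s M
  have h10 : ((∑ i ∈ Finset.range M, f ((s + i * θ : ℝ) : UnitAddCircle) - M * I : ℝ) : ℂ) =
      ((∑ i ∈ Finset.range M, F ((s + i * θ : ℝ) : UnitAddCircle)) -
        (∑ i ∈ Finset.range M, p ((s + i * θ : ℝ) : UnitAddCircle))) +
      ((∑ i ∈ Finset.range M, p ((s + i * θ : ℝ) : UnitAddCircle)) -
        (M : ℂ) * ∫ z, p z ∂AddCircle.haarAddCircle) +
      (M : ℂ) * ((∫ z, p z ∂AddCircle.haarAddCircle) - (I : ℂ)) := by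
    push_cast
    simp only [hF, ContinuousMap.coe_mk]
    ring
  have h11 : |∑ i ∈ Finset.range M, f ((s + i * θ : ℝ) : UnitAddCircle) - M * I| ≤
      δ * M + C + M * δ := by
    rw [← Real.norm_eq_abs, ← Complex.norm_real, h10]
    refine (norm_add₃_le).trans ?_
    refine add_le_add (add_le_add h7 h9) ?_
    rw [norm_mul, Complex.norm_natCast]
    exact mul_le_mul_of_nonneg_left h8 (Nat.cast_nonneg _)
  have h12 := (abs_le.1 h11).2
  have h13 : (0 : ℝ) ≤ M := Nat.cast_nonneg _
  have h14 : I = ε - 4 * δ := by rw [hδ]; ring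
  rw [h14] at h12
  nlinarith

/-! ### Riesz products -/

/-- The Riesz product. -/
noncomputable def PP (B L : ℕ) (t : ℝ) : ℝ :=
  ∏ l ∈ Finset.range L, (1 + Real.cos (2 * π * ((B : ℝ) ^ l * t))) / 2

theorem continuous_PP (B L : ℕ) : Continuous (PP B L) := by
  unfold PP
  refine continuous_finsetProd _ fun l _ => ?_
  fun_prop

theorem PP_nonneg (B L : ℕ) (t : ℝ) : 0 ≤ PP B L t := by
  unfold PP
  refine Finset.prod_nonneg fun l _ => ?_
  have := Real.neg_one_le_cos (2 * π * ((B : ℝ) ^ l * t))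
  linarith

theorem int_cos (B N : ℕ) (hN : 1 ≤ N) : ∫ t in (1 : ℝ)..B, Real.cos (2 * π * (N * t)) = 0 := by
  have hN0 : (0 : ℝ) < N := by exact_mod_cast hN
  have hc : (2 * π * N : ℝ) ≠ 0 := by positivity
  have h1 : ∀ t : ℝ, Real.cos (2 * π * (N * t)) = Real.cos ((2 * π * N) * t) := fun t => by
    congr 1
    ring
  simp_rw [h1]
  rw [intervalIntegral.integral_comp_mul_left (fun x => Real.cos x) hc, integral_cos]
  have h2 : ∀ k : ℕ, Real.sin (2 * π * N * k) = 0 := by
    intro k
    have : (2 * π * N * k : ℝ) = ((2 * N * k : ℕ) : ℝ) * π := by push_cast; ring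
    rw [this]
    exact Real.sin_nat_mul_pi _
  have h3 := h2 1
  rw [Nat.cast_one] at h3
  rw [h2 B, h3, sub_zero, smul_zero]

theorem int_PP_cos (B : ℕ) (hB : 2 ≤ B) (L : ℕ) :
    ∀ N : ℕ, B ^ L ≤ N → ∫ t in (1 : ℝ)..B, PP B L t * Real.cos (2 * π * (N * t)) = 0 := by
  induction L with
  | zero =>
    intro N hN
    simp only [PP, Finset.range_zero, Finset.prod_empty, one_mul]
    exact int_cos B N (by simpa using hN)
  | succ L ih =>
    intro N hN
    have hBL : 2 * B ^ L ≤ N := by
      rw [pow_succ] at hN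
      nlinarith [Nat.pos_of_ne_zero (pow_ne_zero L (by omega : B ≠ 0))]
    have hpos : 1 ≤ B ^ L := Nat.one_le_pow _ _ (by omega)
    have h1 : ∀ t : ℝ, PP B (L + 1) t * Real.cos (2 * π * (N * t)) =
        (1 / 2) * (PP B L t * Real.cos (2 * π * (N * t))) +
        ((1 / 4) * (PP B L t * Real.cos (2 * π * (((N + B ^ L : ℕ) : ℝ) * t))) +
        (1 / 4) * (PP B L t * Real.cos (2 * π * (((N - B ^ L : ℕ) : ℝ) * t)))) := by
      intro t
      rw [PP, Finset.prod_range_succ, ← PP]
      have e1 : 2 * π * (((N + B ^ L : ℕ) : ℝ) * t) = 2 * π * (N * t) + 2 * π * ((B : ℝ) ^ L * t) := by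
        push_cast
        ring
      have e2 : 2 * π * (((N - B ^ L : ℕ) : ℝ) * t) = 2 * π * (N * t) - 2 * π * ((B : ℝ) ^ L * t) := by
        rw [Nat.cast_sub (by omega)]
        push_cast
        ring
      rw [e1, e2, Real.cos_add, Real.cos_sub]
      ring
    simp_rw [h1]
    have hc : ∀ n : ℕ, Continuous fun t : ℝ => PP B L t * Real.cos (2 * π * ((n : ℝ) * t)) := by
      intro n
      exact (continuous_PP B L).mul (by fun_prop)
    rw [intervalIntegral.integral_add, intervalIntegral.integral_add,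
      intervalIntegral.integral_const_mul, intervalIntegral.integral_const_mul,
      intervalIntegral.integral_const_mul, ih N (by omega), ih (N + B ^ L) (by omega),
      ih (N - B ^ L) (by omega)]
    · ring
    · exact ((hc _).const_mul _).intervalIntegrable _ _
    · exact ((hc _).const_mul _).intervalIntegrable _ _
    · exact ((hc _).const_mul _).intervalIntegrable _ _
    · exact (((hc _).const_mul _).add ((hc _).const_mul _)).intervalIntegrable _ _

theorem int_PP (B : ℕ) (hB : 2 ≤ B) (L : ℕ) :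
    ∫ t in (1 : ℝ)..B, PP B L t = ((B : ℝ) - 1) / 2 ^ L := by
  induction L with
  | zero =>
    simp [PP]
  | succ L ih =>
    have h1 : ∀ t : ℝ, PP B (L + 1) t = (1 / 2) * PP B L t +
        (1 / 2) * (PP B L t * Real.cos (2 * π * (((B ^ L : ℕ) : ℝ) * t))) := by
      intro t
      rw [PP, Finset.prod_range_succ, ← PP]
      push_cast
      ring
    simp_rw [h1]
    rw [intervalIntegral.integral_add, intervalIntegral.integral_const_mul,
      intervalIntegral.integral_const_mul, ih, int_PP_cos B hB L _ le_rfl]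
    · rw [pow_succ]
      field_simp
      ring
    · exact ((continuous_PP B L).const_mul _).intervalIntegrable _ _
    · exact (((continuous_PP B L).mul (by fun_prop)).const_mul _).intervalIntegrable _ _

/-- The average of the Riesz products along an irrational rotation of the logarithms. -/
theorem avg_small (B : ℕ) (hB : 3 ≤ B) (θ : ℝ) (hθ : Irrational θ) (ε : ℝ) (hε : 0 < ε) :
    ∃ (L : ℕ) (C : ℝ), 0 ≤ C ∧ ∀ (s : ℝ) (M : ℕ),
      ∑ i ∈ Finset.range M, PP B L ((B : ℝ) ^ Int.fract (s + i * θ)) ≤ ε * M + C := by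
  have hB1 : (1 : ℝ) < B := by exact_mod_cast (by omega : 1 < B)
  have hB0 : (0 : ℝ) < B := by linarith
  have hB3 : (3 : ℝ) ≤ B := by exact_mod_cast hB
  have hlog : 1 ≤ Real.log B := by
    have h1 : Real.exp 1 ≤ B := (Real.exp_one_lt_three.le).trans hB3
    rwa [Real.le_log_iff_exp_le hB0]
  obtain ⟨L, hL⟩ : ∃ L : ℕ, ((B : ℝ) - 1) / 2 ^ L < ε := by
    obtain ⟨L, hL⟩ := pow_unbounded_of_one_lt (((B : ℝ) - 1) / ε) (show (1 : ℝ) < 2 by norm_num)
    refine ⟨L, ?_⟩
    rw [div_lt_iff₀ (by positivity)]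
    rw [div_lt_iff₀ hε] at hL
    linarith
  set f : ℝ → ℝ := fun s => PP B L ((B : ℝ) ^ s) with hf
  have hfc : Continuous f := by
    refine (continuous_PP B L).comp ?_
    exact Real.continuous_const_rpow hB0.ne'
  have hint01 : ∀ k : ℕ, PP B L (k : ℝ) = 1 := by
    intro k
    rw [PP]
    refine Finset.prod_eq_one fun l _ => ?_
    have : 2 * π * ((B : ℝ) ^ l * k) = ((B ^ l * k : ℕ) : ℝ) * (2 * π) := by
      push_cast
      ring
    rw [this, Real.cos_nat_mul_two_pi]
    norm_num
  have hf01 : f 0 = f 1 := by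
    simp only [hf, Real.rpow_zero, Real.rpow_one]
    rw [hint01 B]
    have := hint01 1
    rwa [Nat.cast_one] at this
  set φ : UnitAddCircle → ℝ := AddCircle.liftIco 1 0 f with hφ
  have hφc : Continuous φ := AddCircle.liftIco_zero_continuous hf01 hfc.continuousOn
  have hφf : ∀ s : ℝ, φ (s : UnitAddCircle) = PP B L ((B : ℝ) ^ Int.fract s) := by
    intro s
    have h1 : (s : UnitAddCircle) = (Int.fract s : ℝ) := by
      have h2 : s = Int.fract s + (⌊s⌋ : ℝ) := (Int.fract_add_floor s).symm
      have h3 : ((⌊s⌋ : ℝ) : UnitAddCircle) = 0 := by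
        rw [AddCircle.coe_eq_zero_iff]
        exact ⟨⌊s⌋, by simp⟩
      conv_lhs => rw [h2]
      rw [AddCircle.coe_add, h3, add_zero]
    rw [h1, hφ, AddCircle.liftIco_zero_coe_apply ⟨Int.fract_nonneg s, Int.fract_lt_one s⟩]
  have hφint : ∫ z, φ z ∂(AddCircle.haarAddCircle (T := 1)) < ε := by
    have h3 : (AddCircle.haarAddCircle (T := 1)) = (volume : Measure UnitAddCircle) := by
      rw [AddCircle.volume_eq_smul_haarAddCircle]
      simp
    rw [h3, ← UnitAddCircle.intervalIntegral_preimage 0]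
    have h4 : ∫ s in (0 : ℝ)..(0 + 1), φ (s : UnitAddCircle) = ∫ s in (0 : ℝ)..1, f s := by
      rw [zero_add, intervalIntegral.integral_of_le zero_le_one,
        intervalIntegral.integral_of_le zero_le_one, integral_Ioc_eq_integral_Ioo,
        integral_Ioc_eq_integral_Ioo]
      refine setIntegral_congr_fun measurableSet_Ioo fun s hs => ?_
      change φ (s : UnitAddCircle) = f s
      rw [hφ, AddCircle.liftIco_zero_coe_apply ⟨hs.1.le, hs.2⟩]
    rw [h4]
    have h5 : ∫ s in (0 : ℝ)..1, f s ≤ ∫ s in (0 : ℝ)..1, f s * ((B : ℝ) ^ s * Real.log B) := by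
      refine intervalIntegral.integral_mono_on zero_le_one (hfc.intervalIntegrable _ _) ?_ ?_
      · refine Continuous.intervalIntegrable ?_ _ _
        exact hfc.mul ((Real.continuous_const_rpow hB0.ne').mul continuous_const)
      · intro s hs
        have e1 : 0 ≤ f s := PP_nonneg _ _ _
        have e2 : 1 ≤ (B : ℝ) ^ s := Real.one_le_rpow hB1.le hs.1
        have e3 : 1 ≤ (B : ℝ) ^ s * Real.log B := by nlinarith
        nlinarith
    have h6 : ∫ s in (0 : ℝ)..1, f s * ((B : ℝ) ^ s * Real.log B) = ∫ t in (1 : ℝ)..B, PP B L t := by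
      have h7 := intervalIntegral.integral_comp_mul_deriv (a := 0) (b := 1)
        (f := fun s : ℝ => (B : ℝ) ^ s) (f' := fun s : ℝ => (B : ℝ) ^ s * Real.log B)
        (g := PP B L) (fun s _ => ?_) ?_ (continuous_PP B L)
      · rw [Real.rpow_zero, Real.rpow_one] at h7
        exact h7
      · have := (hasDerivAt_id s).const_rpow hB0
        have h8 : (B : ℝ) ^ s * Real.log B = Real.log B * 1 * (B : ℝ) ^ id s := by
          simp [mul_comm]
        rw [h8]
        exact this
      · exact ((Real.continuous_const_rpow hB0.ne').mul continuous_const).continuousOn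
    rw [h6, int_PP B (by omega) L] at h5
    linarith
  obtain ⟨C, hC0, hC⟩ := rot_bound θ hθ φ hφc ε hφint
  refine ⟨L, C, hC0, fun s M => ?_⟩
  have := hC s M
  simp_rw [hφf] at this
  exact this

end Pool.Agent.H534R3.Rota
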