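import Pool.Agent.H41.Lib.H534R3.Blk
/-! # Stages of the construction -/

set_option autoImplicit false

open MeasureTheory Filter Topology
open scoped Real

namespace Pool.Agent.H534R3.UDist

theorem exists_k {b : ℝ} (hb : 1 < b) : ∃ k : ℕ, 1 ≤ k ∧ 4 * ((k : ℝ) + 1) ≤ b ^ k := by
  have h1 := tendsto_pow_const_div_const_pow_of_one_lt 1 hb
  have h2 := (h1.eventually (gt_mem_nhds (show (0 : ℝ) < 1 / 8 by norm_num))).and
    (eventually_ge_atTop 1)
  obtain ⟨k, hk, hk1⟩ := h2.exists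
  refine ⟨k, hk1, ?_⟩
  have hbk : 0 < b ^ k := by positivity
  rw [pow_one, div_lt_iff₀ hbk] at hk
  have : (1 : ℝ) ≤ k := by exact_mod_cast hk1
  linarith

theorem Bblock {α b : ℝ} (hα : |α| = b) (hb : 1 < b) {k : ℕ} (hk : 4 * ((k : ℝ) + 1) ≤ b ^ k)
    (n : ℕ) (u : ℝ) : ∃ u' : ℝ, Set.Icc u' (u' + 2 / b ^ (n + k)) ⊆ Set.Icc u (u + 2 / b ^ n) ∧
      ∀ ξ ∈ Set.Icc u' (u' + 2 / b ^ (n + k)), Int.fract (ξ * α ^ n) ≤ 1 / (2 * ((k : ℝ) + 1)) := by
  have hk0 : (0 : ℝ) ≤ k := Nat.cast_nonneg k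
  have hbn : 0 < b ^ n := by positivity
  have hbk : 0 < b ^ k := by positivity
  have hbnk : 0 < b ^ (n + k) := by positivity
  set y := α ^ n with hy
  have hyabs : |y| = b ^ n := by rw [hy, abs_pow, hα]
  have hy0 : y ≠ 0 := by
    intro h
    rw [h, abs_zero] at hyabs
    exact hbn.ne hyabs
  have h2k : 2 / b ^ k ≤ 1 / (2 * ((k : ℝ) + 1)) := by
    rw [div_le_div_iff₀ hbk (by positivity)]
    linarith
  have hδ1 : 1 / (2 * ((k : ℝ) + 1)) < 1 := by
    rw [div_lt_one (by positivity)]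
    linarith
  have hfract : ∀ (z : ℝ) (m : ℤ), (m : ℝ) ≤ z → z ≤ m + 2 / b ^ k →
      Int.fract z ≤ 1 / (2 * ((k : ℝ) + 1)) := by
    intro z m h1 h2
    have h3 : ⌊z⌋ = m := by
      rw [Int.floor_eq_iff]
      exact ⟨h1, by linarith⟩
    rw [Int.fract, h3]
    linarith
  have hsplit : 2 / b ^ (n + k) = (2 / b ^ k) / b ^ n := by
    rw [pow_add]
    field_simp
  rcases lt_or_gt_of_ne hy0 with hneg | hpos
  · -- negative
    have hyb : y = -b ^ n := by rw [← hyabs, abs_of_neg hneg, neg_neg]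
    set m : ℤ := ⌈(u + 2 / b ^ n) * y⌉ with hm
    have hm1 : (u + 2 / b ^ n) * y ≤ m := Int.le_ceil _
    have hm2 : (m : ℝ) < (u + 2 / b ^ n) * y + 1 := Int.ceil_lt_add_one _
    refine ⟨m / y - 2 / b ^ (n + k), ?_, ?_⟩
    · have h1 : (m : ℝ) / y ≤ u + 2 / b ^ n := by
        rw [div_le_iff_of_neg hneg]
        exact hm1
      have h2 : u + 1 / b ^ n ≤ (m : ℝ) / y := by
        rw [le_div_iff_of_neg hneg]
        have : (u + 1 / b ^ n) * y = (u + 2 / b ^ n) * y + 1 := by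
          rw [hyb]
          field_simp
          ring
        rw [this]
        exact hm2.le
      have h3 : 2 / b ^ (n + k) ≤ 1 / b ^ n := by
        rw [hsplit]
        refine div_le_div_of_nonneg_right ?_ hbn.le
        linarith
      intro ξ hξ
      constructor <;> linarith [hξ.1, hξ.2]
    · intro ξ hξ
      have h1 : ξ ≤ m / y := by linarith [hξ.2]
      have h2 : (m : ℝ) / y - 2 / b ^ (n + k) ≤ ξ := hξ.1
      refine hfract _ m ?_ ?_
      · rw [le_div_iff_of_neg hneg] at h1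
        exact h1
      · have h3 : ξ * y ≤ (m / y - 2 / b ^ (n + k)) * y :=
          mul_le_mul_of_nonpos_right h2 hneg.le
        have h4 : ((m : ℝ) / y - 2 / b ^ (n + k)) * y = m + 2 / b ^ k := by
          rw [sub_mul, div_mul_cancel₀ _ hy0, hsplit, hyb]
          field_simp
          ring
        rw [h4] at h3
        exact h3
  · have hyb : y = b ^ n := by rw [← hyabs, abs_of_pos hpos]
    set m : ℤ := ⌈u * y⌉ with hm
    have hm1 : u * y ≤ m := Int.le_ceil _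
    have hm2 : (m : ℝ) < u * y + 1 := Int.ceil_lt_add_one _
    refine ⟨m / y, ?_, ?_⟩
    · have h1 : u ≤ (m : ℝ) / y := by
        rw [le_div_iff₀ hpos]
        exact hm1
      have h2 : (m : ℝ) / y ≤ u + 1 / b ^ n := by
        rw [div_le_iff₀ hpos]
        have : (u + 1 / b ^ n) * y = u * y + 1 := by
          rw [hyb]
          field_simp
        rw [this]
        exact hm2.le
      have h3 : 2 / b ^ (n + k) ≤ 1 / b ^ n := by
        rw [hsplit]
        refine div_le_div_of_nonneg_right ?_ hbn.le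
        linarith
      have h4 : 2 / b ^ n = 1 / b ^ n + 1 / b ^ n := by ring
      intro ξ hξ
      constructor <;> linarith [hξ.1, hξ.2]
    · intro ξ hξ
      have h1 : (m : ℝ) / y ≤ ξ := hξ.1
      have h2 : ξ ≤ (m : ℝ) / y + 2 / b ^ (n + k) := hξ.2
      refine hfract _ m ?_ ?_
      · rw [div_le_iff₀ hpos] at h1
        exact h1
      · have h3 : ξ * y ≤ (m / y + 2 / b ^ (n + k)) * y :=
          mul_le_mul_of_nonneg_right h2 hpos.le
        have h4 : ((m : ℝ) / y + 2 / b ^ (n + k)) * y = m + 2 / b ^ k := by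
          rw [add_mul, div_mul_cancel₀ _ hy0, hsplit, hyb]
          field_simp
        rw [h4] at h3
        exact h3

theorem Brep {α b : ℝ} (hα : |α| = b) (hb : 1 < b) {k : ℕ} (hk : 4 * ((k : ℝ) + 1) ≤ b ^ k)
    (R n : ℕ) (u : ℝ) : ∃ u' : ℝ, Set.Icc u' (u' + 2 / b ^ (n + k * R)) ⊆ Set.Icc u (u + 2 / b ^ n) ∧
      ∀ ξ ∈ Set.Icc u' (u' + 2 / b ^ (n + k * R)), ∀ r < R,
        Int.fract (ξ * α ^ (n + k * r)) ≤ 1 / (2 * ((k : ℝ) + 1)) := by
  induction R with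
  | zero => exact ⟨u, by simp, fun ξ _ r hr => absurd hr (Nat.not_lt_zero r)⟩
  | succ R ih =>
    obtain ⟨u₁, hu₁, h₁⟩ := ih
    obtain ⟨u₂, hu₂, h₂⟩ := Bblock hα hb hk (n + k * R) u₁
    have e1 : n + k * (R + 1) = n + k * R + k := by ring
    rw [e1]
    refine ⟨u₂, hu₂.trans hu₁, fun ξ hξ r hr => ?_⟩
    rcases Nat.lt_succ_iff_lt_or_eq.1 hr with h | rfl
    · exact h₁ ξ (hu₂ hξ) r h
    · exact h₂ ξ hξ

/-- The data of the construction. -/
theorem exists_stages (α : ℕ → ℝ) (hα : ∀ i, 1 < |α i|) {k : ℕ}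
    (hk : 4 * ((k : ℝ) + 1) ≤ |α 0| ^ k) :
    ∃ (D : ℕ → ℕ) (st : (ℕ → ℕ) → ℕ → ℕ × ℝ),
      (∀ y, st y 0 = (0, 0)) ∧
      (∀ y y' j, (∀ i < j, y i = y' i) → st y j = st y' j) ∧
      (∀ y j, (st y j).1 < (st y (j + 1)).1 ∧ 4 * (st y j).1 ≤ (st y (j + 1)).1 ∧
        (st y j).1 + k * ((st y j).1 / (y j + 1)) ≤ (st y (j + 1)).1) ∧
      (∀ y j, ∀ i < j + 2, (j + 1) * (D (j + 2) + 1) + 2 ≤ tau |α i| |α 0| (st y (j + 1)).1) ∧
      (∀ y j, Set.Icc (st y (j + 1)).2 ((st y (j + 1)).2 + 2 / |α 0| ^ (st y (j + 1)).1) ⊆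
        Set.Icc (st y j).2 ((st y j).2 + 2 / |α 0| ^ (st y j).1)) ∧
      (∀ y j, ∀ ξ ∈ Set.Icc (st y (j + 1)).2 ((st y (j + 1)).2 + 2 / |α 0| ^ (st y (j + 1)).1),
        (∀ r < (st y j).1 / (y j + 1),
          Int.fract (ξ * α 0 ^ ((st y j).1 + k * r)) ≤ 1 / (2 * ((k : ℝ) + 1))) ∧
        ∀ i < j + 1, ∀ h : ℕ, 1 ≤ h → h ≤ j + 1 → ∀ N,
          tau |α i| |α 0| ((st y j).1 + k * ((st y j).1 / (y j + 1))) ≤ N →
          N ≤ tau |α i| |α 0| (st y (j + 1)).1 →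
          ‖∑ m ∈ Finset.Ico (tau |α i| |α 0| ((st y j).1 + k * ((st y j).1 / (y j + 1)))) N,
              ee (h * (ξ * α i ^ m))‖ ≤
            ((N - tau |α i| |α 0| ((st y j).1 + k * ((st y j).1 / (y j + 1))) : ℕ) : ℝ) / (j + 1 : ℕ)
              + D (j + 1)) := by
  have hb := hα 0
  have hB := fun R n u => Brep (α := α 0) rfl hb hk R n u
  choose uB hB1 hB2 using hB
  have hG := fun q : ℕ => Grep α hα hb (q + 1) (by omega)
  choose M D hM uG hG1 hG2 using hG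
  -- thresholds
  have hTh : ∀ j : ℕ, ∃ Th : ℕ, ∀ n, Th ≤ n → ∀ i < j + 2,
      (j + 1) * (D (j + 1) + 1) + 2 ≤ tau |α i| |α 0| n := by
    intro j
    have h1 : ∀ i, ∃ t : ℕ, |α i| ^ ((j + 1) * (D (j + 1) + 1) + 2 + 1) ≤ |α 0| ^ t := by
      intro i
      obtain ⟨t, ht⟩ := pow_unbounded_of_one_lt (|α i| ^ ((j + 1) * (D (j + 1) + 1) + 2 + 1)) hb
      exact ⟨t, ht.le⟩
    choose t ht using h1
    refine ⟨(Finset.range (j + 2)).sup t, fun n hn i hi => ?_⟩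
    have h2 : t i ≤ n := (Finset.le_sup (f := t) (Finset.mem_range.2 hi)).trans hn
    have h3 := tau_diff (hα i) hb (M := n) ((ht i).trans (pow_le_pow_right₀ hb.le h2)) 0
    rw [zero_add] at h3
    omega
  choose Th hTh using hTh
  set nxt : ℕ → ℕ → ℕ × ℝ → ℕ × ℝ := fun j e s =>
    (s.1 + k * (s.1 / (e + 1)) + M j * (4 * s.1 + Th j + 1),
      uG j (4 * s.1 + Th j + 1) (s.1 + k * (s.1 / (e + 1))) (uB (s.1 / (e + 1)) s.1 s.2)) with hnxt
  set st : (ℕ → ℕ) → ℕ → ℕ × ℝ := fun y j => Nat.rec (0, 0) (fun j s => nxt j (y j) s) j with hst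
  have hst1 : ∀ y j, st y (j + 1) = nxt j (y j) (st y j) := fun y j => rfl
  have hlen : ∀ y j, (st y j).1 + k * ((st y j).1 / (y j + 1)) + (4 * (st y j).1 + Th j + 1) ≤
      (st y (j + 1)).1 := by
    intro y j
    rw [hst1, hnxt]
    have := Nat.mul_le_mul_right (4 * (st y j).1 + Th j + 1) (hM j)
    simp only
    omega
  refine ⟨fun j => D (j - 1), st, fun y => rfl, ?_, ?_, ?_, ?_, ?_⟩
  · intro y y' j
    induction j with
    | zero => intro _; rfl
    | succ j ih =>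
      intro h
      rw [hst1, hst1, ih fun i hi => h i (by omega), h j (by omega)]
  · intro y j
    have := hlen y j
    refine ⟨by omega, by omega, by omega⟩
  · intro y j i hi
    have := hlen y j
    exact hTh j _ (by omega) i hi
  · intro y j
    rw [hst1, hnxt]
    exact (hG1 j _ _ _).trans (hB1 _ _ _)
  · intro y j ξ hξ
    rw [hst1, hnxt] at hξ
    refine ⟨hB2 _ _ _ ξ (hG1 j _ _ _ hξ), ?_⟩
    intro i hi h h1 h2 N hN1 hN2
    have := hG2 j _ _ _ ξ hξ i hi h h1 h2 N hN1 hN2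
    simpa using this

end Pool.Agent.H534R3.UDist
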