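import Pool.Agent.H41.Lib.H534R3.RBlk
import Pool.Agent.H41.Lib.H534R3.Red
/-! # Stages for two bases -/

set_option autoImplicit false

open MeasureTheory Filter Topology
open scoped Real

namespace Pool.Agent.H534R3.Rota

open Pool.Agent.H534R3.UDist

theorem tau_le_tau {a b b' : ℝ} (ha : 1 < a) {n n' : ℕ} (h : b ^ n ≤ b' ^ n') :
    tau a b n ≤ tau a b' n' :=
  tau_le (h.trans (tau_spec ha b' n'))

theorem tau_gap {a b b' : ℝ} (ha : 1 < a) (hb' : 1 < b') {n n' g : ℕ} {K : ℝ} (hK : 0 ≤ K)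
    (h : b' ^ n' ≤ K * b ^ n) (hg : a * K ≤ a ^ g) : tau a b' n' ≤ tau a b n + g := by
  have h1 := tau_up ha hb' n'
  have h2 := tau_spec ha b n
  have h3 : a ^ tau a b' n' ≤ a ^ (tau a b n + g) := by
    calc a ^ tau a b' n' ≤ a * b' ^ n' := h1
      _ ≤ a * (K * b ^ n) := mul_le_mul_of_nonneg_left h (by linarith)
      _ ≤ a * (K * a ^ tau a b n) :=
          mul_le_mul_of_nonneg_left (mul_le_mul_of_nonneg_left h2 hK) (by linarith)
      _ = (a * K) * a ^ tau a b n := by ring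
      _ ≤ a ^ g * a ^ tau a b n := mul_le_mul_of_nonneg_right hg (by positivity)
      _ = _ := by rw [← pow_add, add_comm]
  exact (pow_le_pow_iff_right₀ ha).1 h3

/-- Repeated generic blocks for two bases. -/
theorem Gen2 (bs : Bool → ℕ) (hbs : ∀ t, 2 ≤ bs t) (q : ℕ) (hq : 1 ≤ q) :
    ∃ M D : ℕ, 1 ≤ M ∧ ∀ (T n : ℕ) (u : ℝ), ∃ u' : ℝ,
      Set.Icc u' (u' + 2 / (2 : ℝ) ^ (n + M * T)) ⊆ Set.Icc u (u + 2 / (2 : ℝ) ^ n) ∧
      ∀ ξ ∈ Set.Icc u' (u' + 2 / (2 : ℝ) ^ (n + M * T)), ∀ t : Bool, ∀ h : ℕ, 1 ≤ h → h ≤ q →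
        ∀ N, tau (bs t : ℝ) 2 n ≤ N → N ≤ tau (bs t : ℝ) 2 (n + M * T) →
          ‖∑ m ∈ Finset.Ico (tau (bs t : ℝ) 2 n) N, ee (h * (ξ * (bs t : ℝ) ^ m))‖ ≤
            ((N - tau (bs t : ℝ) 2 n : ℕ) : ℝ) / q + D := by
  have hbs1 : ∀ t, (1 : ℝ) < bs t := fun t => by exact_mod_cast (by have := hbs t; omega : 1 < bs t)
  have habs : ∀ t, |(bs t : ℝ)| = bs t := fun t => abs_of_pos (by linarith [hbs1 t])
  set α : ℕ → ℝ := fun i => (bs (decide (i ≠ 0)) : ℝ) with hα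
  obtain ⟨M, D, hM, hG⟩ := Grep α (fun i => by simp only [hα, habs]; exact hbs1 _)
    (b := 2) (by norm_num) (q + 2) (by omega)
  have hq0 : (0 : ℝ) < q := by exact_mod_cast hq
  refine ⟨M, D, hM, fun T n u => ?_⟩
  obtain ⟨u', h1, h2⟩ := hG T n u
  refine ⟨u', h1, fun ξ hξ t h hh1 hh2 N hN1 hN2 => ?_⟩
  obtain ⟨i, hi, hit⟩ : ∃ i, i < q + 2 ∧ α i = bs t := by
    cases t
    · exact ⟨0, by omega, by simp [hα]⟩
    · exact ⟨1, by omega, by simp [hα]⟩
  have h3 := h2 ξ hξ i hi h hh1 (by omega) N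
  rw [hit, habs] at h3
  refine (h3 hN1 hN2).trans (add_le_add (div_le_div_of_nonneg_left (Nat.cast_nonneg _) hq0 ?_) le_rfl)
  push_cast
  linarith

/-- The type of a stage. -/
def ty (j : ℕ) : Bool := decide (j % 2 = 1)

theorem triv_sum (c : ℝ) (h : ℕ) (ξ : ℝ) (m n : ℕ) :
    ‖∑ i ∈ Finset.Ico m n, ee (h * (ξ * c ^ i))‖ ≤ ((n - m : ℕ) : ℝ) := by
  refine (norm_sum_le _ _).trans ?_
  simp_rw [norm_ee]
  rw [Finset.sum_const, Nat.card_Ico, nsmul_eq_mul, mul_one]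

theorem split_sum (c : ℝ) (h : ℕ) (ξ : ℝ) {l m n : ℕ} (h1 : l ≤ m) (h2 : m ≤ n) :
    ‖∑ i ∈ Finset.Ico l n, ee (h * (ξ * c ^ i))‖ ≤
      ‖∑ i ∈ Finset.Ico l m, ee (h * (ξ * c ^ i))‖ + ‖∑ i ∈ Finset.Ico m n, ee (h * (ξ * c ^ i))‖ := by
  rw [← Finset.sum_Ico_consecutive _ h1 h2]
  exact norm_add_le _ _

/-- Combination of the bounds in the consecutive windows of one stage. -/
theorem combine (c : ℝ) (h : ℕ) (ξ : ℝ) (A0 A1 A2 A3 A4 g : ℕ) (q D1 D2 bias : ℝ) (hq : 0 < q)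
    (hD1 : 0 ≤ D1) (hD2 : 0 ≤ D2) (hbias : 0 ≤ bias)
    (h01 : A0 ≤ A1) (h12 : A1 ≤ A2) (h23 : A2 ≤ A3) (g01 : A1 ≤ A0 + g)
    (g23 : A3 ≤ A2 + g)
    (hb : ∀ N, A1 ≤ N → N ≤ A2 → ‖∑ i ∈ Finset.Ico A1 N, ee (h * (ξ * c ^ i))‖ ≤
      bias + ((N - A1 : ℕ) : ℝ) / q + D1)
    (hg : ∀ N, A3 ≤ N → N ≤ A4 → ‖∑ i ∈ Finset.Ico A3 N, ee (h * (ξ * c ^ i))‖ ≤
      ((N - A3 : ℕ) : ℝ) / q + D2) (N : ℕ) (hN0 : A0 ≤ N) (hN4 : N ≤ A4) :
    ‖∑ i ∈ Finset.Ico A0 N, ee (h * (ξ * c ^ i))‖ ≤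
      bias + ((N - A0 : ℕ) : ℝ) / q + (2 * g + D1 + D2) := by
  have hg0 : (0 : ℝ) ≤ g := Nat.cast_nonneg g
  have hdiv : ∀ m n : ℕ, m ≤ n → (m : ℝ) / q ≤ (n : ℝ) / q := fun m n hmn =>
    div_le_div_of_nonneg_right (by exact_mod_cast hmn) hq.le
  have hdiv0 : ∀ m : ℕ, 0 ≤ (m : ℝ) / q := fun m => div_nonneg (Nat.cast_nonneg _) hq.le
  have t1 : ∀ m n : ℕ, n ≤ m + g → ‖∑ i ∈ Finset.Ico m n, ee (h * (ξ * c ^ i))‖ ≤ g := by
    intro m n hmn
    refine (triv_sum c h ξ m n).trans ?_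
    exact_mod_cast (by omega : n - m ≤ g)
  rcases le_total N A1 with c1 | c1
  · have := t1 A0 N (by omega)
    have := hdiv0 (N - A0)
    linarith
  · have s1 := split_sum c h ξ h01 c1
    have s2 := t1 A0 A1 g01
    rcases le_total N A2 with c2 | c2
    · have := hb N c1 c2
      have := hdiv (N - A1) (N - A0) (by omega)
      linarith
    · have s3 := split_sum c h ξ h12 c2
      have s4 := hb A2 h12 le_rfl
      rcases le_total N A3 with c3 | c3
      · have := t1 A2 N (by omega)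
        have := hdiv (A2 - A1) (N - A0) (by omega)
        linarith
      · have s5 := split_sum c h ξ h23 c3
        have s6 := t1 A2 A3 g23
        have s7 := hg N c3 hN4
        have s8 : ((A2 - A1 : ℕ) : ℝ) / q + ((N - A3 : ℕ) : ℝ) / q ≤ ((N - A0 : ℕ) : ℝ) / q := by
          rw [← add_div, ← Nat.cast_add]
          exact hdiv _ _ (by omega)
        linarith

/-- The data of the construction for two bases. -/
theorem exists_stages2 (bs k : Bool → ℕ) (hbs : ∀ t, 2 ≤ bs t) (hk1 : ∀ t, 1 ≤ k t)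
    (hk : ∀ t, 8 * ((k t : ℝ) + 1) ≤ (bs t : ℝ) ^ k t)
    (hirr : ∀ t, Irrational (Real.logb (((bs t) ^ (k t) : ℕ) : ℝ) (bs !t))) :
    ∃ (D : ℕ → ℕ) (st : (ℕ → ℕ) → ℕ → ℕ × ℝ) (rt : (ℕ → ℕ) → ℕ → ℕ),
      (∀ w w' j, (∀ i < j, w i = w' i) → st w j = st w' j) ∧
      (∀ w j, (st w j).1 < (st w (j + 1)).1 ∧ 4 * (st w j).1 ≤ (st w (j + 1)).1) ∧
      (∀ w j t, (j + 1) * (D (j + 2) + 1) + 2 ≤ tau (bs t : ℝ) 2 (st w (j + 1)).1) ∧
      (∀ w j, Set.Icc (st w (j + 1)).2 ((st w (j + 1)).2 + 2 / (2 : ℝ) ^ (st w (j + 1)).1) ⊆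
        Set.Icc (st w j).2 ((st w j).2 + 2 / (2 : ℝ) ^ (st w j).1)) ∧
      (∀ w j, tau (bs (ty j) : ℝ) 2 (st w j).1 ≤ (w j + 1) * (rt w j + D (j + 1)) ∧
        (w j + 1) * rt w j ≤ tau (bs (ty j) : ℝ) 2 (st w j).1 ∧
        tau (bs (ty j) : ℝ) 2 (st w j).1 + k (ty j) * rt w j ≤
          tau (bs (ty j) : ℝ) 2 (st w (j + 1)).1) ∧
      (∀ w j, ∀ ξ ∈ Set.Icc (st w (j + 1)).2 ((st w (j + 1)).2 + 2 / (2 : ℝ) ^ (st w (j + 1)).1),
        (∀ r < rt w j, Int.fract (ξ * (bs (ty j) : ℝ) ^ (tau (bs (ty j) : ℝ) 2 (st w j).1 +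
          k (ty j) * r)) ≤ 1 / (2 * ((k (ty j) : ℝ) + 1))) ∧
        ∀ t h : _, 1 ≤ h → h ≤ j + 1 → ∀ N,
          tau (bs t : ℝ) 2 (st w j).1 ≤ N → N ≤ tau (bs t : ℝ) 2 (st w (j + 1)).1 →
          ‖∑ m ∈ Finset.Ico (tau (bs t : ℝ) 2 (st w j).1) N, ee ((h : ℕ) * (ξ * (bs t : ℝ) ^ m))‖ ≤
            (if t = ty j then (k t : ℝ) * rt w j else 0) +
            ((N - tau (bs t : ℝ) 2 (st w j).1 : ℕ) : ℝ) / (j + 1 : ℕ) + D (j + 1)) := by
  have hbs1 : ∀ t, (1 : ℝ) < bs t := fun t => by exact_mod_cast (by have := hbs t; omega : 1 < bs t)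
  have hbs2 : ∀ t, (2 : ℝ) ≤ bs t := fun t => by exact_mod_cast hbs t
  have hG := fun q : ℕ => Gen2 bs hbs (q + 1) (by omega)
  choose M D2 hM uG hG1 hG2 using hG
  have hR := fun (q : ℕ) (t : Bool) => RRep (bs !t) (bs t) (k t) (q + 1) (hbs _) (hbs _) (hk1 t)
    (hk t) (by omega) (hirr t)
  choose R D1 hR1 uR hRR1 hRR2 using hR
  have hgap : ∀ t : Bool, ∃ g : ℕ, (bs t : ℝ) * (bs !t : ℝ) ≤ (bs t : ℝ) ^ g ∧ 2 ≤ g := by
    intro t
    obtain ⟨g, hg⟩ := pow_unbounded_of_one_lt ((bs t : ℝ) * (bs !t : ℝ)) (hbs1 t)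
    exact ⟨g + 2, hg.le.trans (pow_le_pow_right₀ (hbs1 t).le (by omega)), by omega⟩
  choose g hg hg2 using hgap
  set G : ℕ := g false + g true with hGdef
  have hgG : ∀ t, g t ≤ G := fun t => by cases t <;> omega
  set D : ℕ → ℕ := fun j => 2 * G + (D1 (j - 1) false + D1 (j - 1) true) + D2 (j - 1) +
    (R (j - 1) false + R (j - 1) true) with hD
  have hTh : ∀ j : ℕ, ∃ Th : ℕ, ∀ n, Th ≤ n → ∀ t,
      (j + 1) * (D (j + 2) + 1) + 2 ≤ tau (bs t : ℝ) 2 n := by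
    intro j
    have h1 : ∀ t, ∃ s : ℕ, (bs t : ℝ) ^ ((j + 1) * (D (j + 2) + 1) + 2 + 1) ≤ (2 : ℝ) ^ s := by
      intro t
      obtain ⟨s, hs⟩ := pow_unbounded_of_one_lt
        ((bs t : ℝ) ^ ((j + 1) * (D (j + 2) + 1) + 2 + 1)) (show (1 : ℝ) < 2 by norm_num)
      exact ⟨s, hs.le⟩
    choose s hs using h1
    refine ⟨s false + s true, fun n hn t => ?_⟩
    have h2 : s t ≤ n := by cases t <;> omega
    have h3 := tau_diff (a := (bs t : ℝ)) (b := 2) (hbs1 t) (by norm_num) (M := n)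
      ((hs t).trans (pow_le_pow_right₀ (by norm_num) h2)) 0
    rw [zero_add] at h3
    omega
  choose Th hTh using hTh
  -- one step
  set pp : ℕ → ℕ × ℝ → ℕ := fun j s => tau (bs (ty j) : ℝ) 2 s.1 with hpp
  set TT : ℕ → ℕ → ℕ × ℝ → ℕ := fun j e s => pp j s / ((e + 1) * R j (ty j)) with hTT
  set p' : ℕ → ℕ → ℕ × ℝ → ℕ := fun j e s => pp j s + k (ty j) * (R j (ty j) * TT j e s) with hp'
  set n1 : ℕ → ℕ → ℕ × ℝ → ℕ := fun j e s => tau 2 (bs (ty j) : ℝ) (p' j e s) with hn1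
  set u1 : ℕ → ℕ → ℕ × ℝ → ℝ := fun j e s => uR j (ty j) (TT j e s) (pp j s) s.2 with hu1
  set nxt : ℕ → ℕ → ℕ × ℝ → ℕ × ℝ := fun j e s =>
    (n1 j e s + M j * (4 * s.1 + Th j + 1), uG j (4 * s.1 + Th j + 1) (n1 j e s) (u1 j e s)) with hnxt
  set st : (ℕ → ℕ) → ℕ → ℕ × ℝ := fun w j => Nat.rec (0, 0) (fun j s => nxt j (w j) s) j with hst
  have hst1 : ∀ w j, st w (j + 1) = nxt j (w j) (st w j) := fun w j => rfl
  -- facts about one step
  have f1 : ∀ j s, (2 : ℝ) ^ s.1 ≤ (bs (ty j) : ℝ) ^ pp j s := fun j (s : ℕ × ℝ) =>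
    tau_spec (hbs1 _) 2 s.1
  have f2 : ∀ j e s, (bs (ty j) : ℝ) ^ p' j e s ≤ (2 : ℝ) ^ n1 j e s := fun j e s =>
    tau_spec (by norm_num) _ _
  have f3 : ∀ j e s, pp j s ≤ p' j e s := fun j e s => Nat.le_add_right _ _
  have f4 : ∀ j e (s : ℕ × ℝ), s.1 ≤ n1 j e s := by
    intro j e s
    have h1 : (2 : ℝ) ^ s.1 ≤ (2 : ℝ) ^ n1 j e s :=
      (f1 j s).trans ((pow_le_pow_right₀ (hbs1 _).le (f3 j e s)).trans (f2 j e s))
    exact (pow_le_pow_iff_right₀ (by norm_num)).1 h1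
  have f5 : ∀ j e (s : ℕ × ℝ), n1 j e s + (4 * s.1 + Th j + 1) ≤ (nxt j e s).1 := by
    intro j e s
    have := Nat.mul_le_mul_right (4 * s.1 + Th j + 1) (hM j)
    simp only [hnxt]
    omega
  have f6 : ∀ j e (s : ℕ × ℝ), (2 : ℝ) ^ n1 j e s ≤ 2 * (bs (ty j) : ℝ) ^ p' j e s := fun j e s =>
    tau_up (by norm_num) (hbs1 _) _
  have f7 : ∀ j (s : ℕ × ℝ), (bs (ty j) : ℝ) ^ pp j s ≤ (bs (ty j) : ℝ) * (2 : ℝ) ^ s.1 := fun j s =>
    tau_up (hbs1 _) (by norm_num) _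
  have n_le : ∀ j e (s : ℕ × ℝ), n1 j e s ≤ (nxt j e s).1 := fun j e s => by
    have := f5 j e s
    omega
  refine ⟨D, st, fun w j => R j (ty j) * TT j (w j) (st w j), ?_, ?_, ?_, ?_, ?_, ?_⟩
  · intro w w' j
    induction j with
    | zero => intro _; rfl
    | succ j ih =>
      intro h
      rw [hst1, hst1, ih fun i hi => h i (by omega), h j (by omega)]
  · intro w j
    have h1 := f5 j (w j) (st w j)
    have h2 := f4 j (w j) (st w j)
    rw [hst1]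
    exact ⟨by omega, by omega⟩
  · intro w j t
    have h1 := f5 j (w j) (st w j)
    rw [hst1]
    exact hTh j _ (by omega) t
  · intro w j
    rw [hst1]
    refine (hG1 j _ _ _).trans ?_
    have e1 : Set.Icc (u1 j (w j) (st w j)) (u1 j (w j) (st w j) + 2 / (2 : ℝ) ^ n1 j (w j) (st w j)) ⊆
        Set.Icc (u1 j (w j) (st w j))
          (u1 j (w j) (st w j) + 2 / (bs (ty j) : ℝ) ^ p' j (w j) (st w j)) := by
      refine Set.Icc_subset_Icc le_rfl (add_le_add le_rfl ?_)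
      refine div_le_div_of_nonneg_left (by norm_num) ?_ (f2 _ _ _)
      have := hbs1 (ty j)
      positivity
    refine e1.trans ((hRR1 j (ty j) _ _ _).trans ?_)
    refine Set.Icc_subset_Icc le_rfl (add_le_add le_rfl ?_)
    exact div_le_div_of_nonneg_left (by norm_num) (by positivity) (f1 _ _)
  · intro w j
    have hR0 : 0 < R j (ty j) := hR1 j (ty j)
    have hRD : R j (ty j) ≤ D (j + 1) := by
      simp only [hD, Nat.add_sub_cancel]
      cases ty j <;> omega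
    refine ⟨?_, ?_, ?_⟩
    · change pp j (st w j) ≤ _
      have h1 := Nat.lt_mul_div_succ (pp j (st w j)) (show 0 < (w j + 1) * R j (ty j) by positivity)
      have h2 : (w j + 1) * R j (ty j) * (TT j (w j) (st w j) + 1) ≤
          (w j + 1) * (R j (ty j) * TT j (w j) (st w j) + D (j + 1)) := by
        rw [mul_assoc]
        refine Nat.mul_le_mul_left _ ?_
        rw [Nat.mul_add, Nat.mul_one]
        omega
      exact h1.le.trans h2
    · change _ ≤ pp j (st w j)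
      rw [← mul_assoc]
      exact Nat.mul_div_le _ _
    · rw [hst1]
      change p' j (w j) (st w j) ≤ _
      have h1 : (bs (ty j) : ℝ) ^ p' j (w j) (st w j) ≤
          (bs (ty j) : ℝ) ^ tau (bs (ty j) : ℝ) 2 (nxt j (w j) (st w j)).1 :=
        (f2 _ _ _).trans ((pow_le_pow_right₀ (by norm_num) (n_le _ _ _)).trans
          (tau_spec (hbs1 _) 2 _))
      exact (pow_le_pow_iff_right₀ (hbs1 _)).1 h1
  · intro w j ξ hξ
    rw [hst1] at hξ
    set s := st w j with hs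
    set e := w j with he
    have hξ1 := hG1 j _ _ _ hξ
    have e1 : Set.Icc (u1 j e s) (u1 j e s + 2 / (2 : ℝ) ^ n1 j e s) ⊆
        Set.Icc (u1 j e s) (u1 j e s + 2 / (bs (ty j) : ℝ) ^ p' j e s) := by
      refine Set.Icc_subset_Icc le_rfl (add_le_add le_rfl ?_)
      refine div_le_div_of_nonneg_left (by norm_num) ?_ (f2 _ _ _)
      have := hbs1 (ty j)
      positivity
    have hξ2 := e1 hξ1
    obtain ⟨b1, b2⟩ := hRR2 j (ty j) _ _ _ ξ hξ2
    refine ⟨b1, fun t h hh1 hh2 N hN1 hN2 => ?_⟩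
    have hgen := hG2 j _ _ _ ξ hξ t h hh1 hh2
    have hq0 : (0 : ℝ) < ((j + 1 : ℕ) : ℝ) := by positivity
    have hst' : st w (j + 1) = nxt j e s := hst1 w j
    rw [hst'] at hN2
    by_cases ht : t = ty j
    · -- the biased base
      rw [if_pos ht]
      subst ht
      have g23 : tau (bs (ty j) : ℝ) 2 (n1 j e s) ≤ p' j e s + G := by
        have h1 := tau_gap (a := (bs (ty j) : ℝ)) (b := (bs (ty j) : ℝ)) (b' := 2) (g := 2)
          (n := p' j e s) (n' := n1 j e s) (hbs1 _) (by norm_num)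
          (K := 2) (by norm_num) (f6 j e s) (by
            rw [sq]
            have := hbs2 (ty j)
            have := hbs1 (ty j)
            nlinarith)
        rw [tau_self (hbs1 _)] at h1
        have := hgG (ty j)
        have := hg2 (ty j)
        omega
      have h23 : p' j e s ≤ tau (bs (ty j) : ℝ) 2 (n1 j e s) := by
        have h1 : (bs (ty j) : ℝ) ^ p' j e s ≤ (bs (ty j) : ℝ) ^ tau (bs (ty j) : ℝ) 2 (n1 j e s) :=
          (f2 _ _ _).trans (tau_spec (hbs1 _) 2 _)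
        exact (pow_le_pow_iff_right₀ (hbs1 _)).1 h1
      have hc := combine (bs (ty j) : ℝ) h ξ (pp j s) (pp j s) (p' j e s)
        (tau (bs (ty j) : ℝ) 2 (n1 j e s)) (tau (bs (ty j) : ℝ) 2 (nxt j e s).1) G
        ((j + 1 : ℕ) : ℝ) 0 (D2 j) ((k (ty j) : ℝ) * (R j (ty j) * TT j e s : ℕ)) hq0 le_rfl
        (Nat.cast_nonneg _) (by positivity) le_rfl (f3 j e s) h23 (by omega) g23
        (by
          intro N hN1 hN2
          refine (triv_sum _ _ _ _ _).trans ?_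
          have h1 : N - pp j s ≤ k (ty j) * (R j (ty j) * TT j e s) := by
            have : p' j e s = pp j s + k (ty j) * (R j (ty j) * TT j e s) := rfl
            omega
          have h2 : ((N - pp j s : ℕ) : ℝ) ≤ (k (ty j) : ℝ) * (R j (ty j) * TT j e s : ℕ) := by
            exact_mod_cast h1
          have h3 : 0 ≤ ((N - pp j s : ℕ) : ℝ) / ((j + 1 : ℕ) : ℝ) := by positivity
          linarith)
        hgen N hN1 hN2
      refine hc.trans (add_le_add le_rfl ?_)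
      simp only [hD, Nat.add_sub_cancel]
      push_cast
      have : (0 : ℝ) ≤ D1 j false := Nat.cast_nonneg _
      have : (0 : ℝ) ≤ D1 j true := Nat.cast_nonneg _
      have : (0 : ℝ) ≤ R j false := Nat.cast_nonneg _
      have : (0 : ℝ) ≤ R j true := Nat.cast_nonneg _
      linarith
    · -- the other base
      rw [if_neg ht]
      have ht' : t = !(ty j) := by
        cases t <;> cases hty : ty j <;> simp_all
      have ht'' : ty j = !t := by rw [ht', Bool.not_not]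
      have h01 : tau (bs t : ℝ) 2 s.1 ≤ tau (bs t : ℝ) (bs (ty j)) (pp j s) :=
        tau_le_tau (hbs1 _) (f1 j s)
      have h12 : tau (bs t : ℝ) (bs (ty j)) (pp j s) ≤ tau (bs t : ℝ) (bs (ty j)) (p' j e s) :=
        tau_mono (hbs1 _) (hbs1 _) (f3 j e s)
      have h23 : tau (bs t : ℝ) (bs (ty j)) (p' j e s) ≤ tau (bs t : ℝ) 2 (n1 j e s) :=
        tau_le_tau (hbs1 _) (f2 j e s)
      have g01 : tau (bs t : ℝ) (bs (ty j)) (pp j s) ≤ tau (bs t : ℝ) 2 s.1 + G := by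
        have h1 := tau_gap (a := (bs t : ℝ)) (b := 2) (b' := (bs (ty j) : ℝ)) (g := g t)
          (n := s.1) (n' := pp j s) (hbs1 _) (hbs1 _) (K := (bs (ty j) : ℝ)) (by positivity)
          (f7 j s) (by
            rw [ht'']
            exact hg t)
        have := hgG t
        omega
      have g23 : tau (bs t : ℝ) 2 (n1 j e s) ≤ tau (bs t : ℝ) (bs (ty j)) (p' j e s) + G := by
        have h1 := tau_gap (a := (bs t : ℝ)) (b := (bs (ty j) : ℝ)) (b' := 2) (g := 2)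
          (n := p' j e s) (n' := n1 j e s) (hbs1 _) (by norm_num)
          (K := 2) (by norm_num) (f6 j e s) (by
            rw [sq]
            have := hbs2 t
            have := hbs1 t
            nlinarith)
        have := hgG t
        have := hg2 t
        omega
      have hb2 := b2 h hh1 hh2
      rw [← ht'] at hb2
      have hc := combine (bs t : ℝ) h ξ (tau (bs t : ℝ) 2 s.1) (tau (bs t : ℝ) (bs (ty j)) (pp j s))
        (tau (bs t : ℝ) (bs (ty j)) (p' j e s))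
        (tau (bs t : ℝ) 2 (n1 j e s)) (tau (bs t : ℝ) 2 (nxt j e s).1) G
        ((j + 1 : ℕ) : ℝ) (D1 j (ty j)) (D2 j) 0 hq0 (Nat.cast_nonneg _)
        (Nat.cast_nonneg _) le_rfl h01 h12 h23 g01 g23
        (by
          intro N hN1 hN2
          rw [zero_add]
          exact hb2 N hN1 hN2)
        hgen N hN1 hN2
      refine hc.trans (add_le_add le_rfl ?_)
      simp only [hD, Nat.add_sub_cancel]
      push_cast
      have h1 : (0 : ℝ) ≤ D1 j false := Nat.cast_nonneg _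
      have h2 : (0 : ℝ) ≤ D1 j true := Nat.cast_nonneg _
      have h3 : (0 : ℝ) ≤ R j false := Nat.cast_nonneg _
      have h4 : (0 : ℝ) ≤ R j true := Nat.cast_nonneg _
      have h5 : (D1 j (ty j) : ℝ) ≤ D1 j false + D1 j true := by
        cases ty j <;> linarith
      linarith

end Pool.Agent.H534R3.Rota
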