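import Pool.Agent.H41.Lib.H534R3.XStage
import Pool.Agent.H41.Lib.H534R3.Red
/-! # The reduction for countably many real bases -/

set_option autoImplicit false

open MeasureTheory Filter Topology
open scoped Real

namespace Pool.Agent.H534R3.Rota

open Pool.Agent.H534R3.UDist

theorem arc_iff {K : ℝ} (hK : 0 < K) {y : ℝ} (hy : 0 ≤ y) (i : ℕ) :
    ((i : ℝ) / K ≤ y ∧ y < ((i : ℝ) + 1) / K) ↔ i = ⌊K * y⌋₊ := by
  rw [eq_comm, Nat.floor_eq_iff (by positivity), div_le_iff₀ hK, lt_div_iff₀ hK, mul_comm K]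

theorem sum_cos_zero (m : ℕ) (hm : 1 ≤ m) :
    ∑ i ∈ Finset.range (m + m), Real.cos (2 * π * ((i : ℝ) / (2 * m))) = 0 := by
  rw [Finset.sum_range_add, ← Finset.sum_add_distrib]
  refine Finset.sum_eq_zero fun i _ => ?_
  have hm0 : (m : ℝ) ≠ 0 := by
    have : m ≠ 0 := by omega
    exact_mod_cast this
  have h1 : 2 * π * (((m + i : ℕ) : ℝ) / (2 * m)) = 2 * π * ((i : ℝ) / (2 * m)) + π := by
    push_cast
    field_simp
    ring
  rw [h1, Real.cos_add_pi]
  ring

theorem cos_lip (x y : ℝ) : |Real.cos (2 * π * x) - Real.cos (2 * π * y)| ≤ 2 * π * |x - y| := by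
  have h1 := ee_lip x y
  have h2 := (Complex.abs_re_le_norm (ee x - ee y)).trans h1
  rwa [Complex.sub_re, ee_re, ee_re] at h2

theorem cos_fract (x : ℝ) : Real.cos (2 * π * x) = Real.cos (2 * π * Int.fract x) := by
  have h1 : 2 * π * x = 2 * π * Int.fract x + (⌊x⌋ : ℝ) * (2 * π) := by
    have := Int.fract_add_floor x
    nlinarith [Real.pi_pos]
  rw [h1, Real.cos_add_int_mul_two_pi]

theorem ud_cos (x : ℕ → ℝ) (hx : UD x) :
    Tendsto (fun N : ℕ => (∑ n ∈ Finset.range N, Real.cos (2 * π * x n)) / (N : ℝ)) atTop (𝓝 0) := by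
  rw [Metric.tendsto_atTop]
  intro ε hε
  obtain ⟨m, hm⟩ := exists_nat_gt (max 1 (2 * π / ε))
  have hm1 : (1 : ℝ) < m := lt_of_le_of_lt (le_max_left _ _) hm
  have hm2 : 2 * π / ε < m := lt_of_le_of_lt (le_max_right _ _) hm
  have hm1' : 1 ≤ m := by
    have : 1 < m := by exact_mod_cast hm1
    omega
  have hm0 : (0 : ℝ) < m := by linarith
  set K : ℝ := 2 * m with hK
  have hK0 : 0 < K := by positivity
  have hpi := Real.pi_pos
  -- the counting functions
  have hlim : Tendsto (fun N : ℕ => ∑ i ∈ Finset.range (m + m),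
      Real.cos (2 * π * ((i : ℝ) / K)) * ((cnt x ((i : ℝ) / K) (((i : ℝ) + 1) / K) N : ℝ) / N))
      atTop (𝓝 0) := by
    have h1 : ∀ i ∈ Finset.range (m + m), Tendsto (fun N : ℕ =>
        Real.cos (2 * π * ((i : ℝ) / K)) * ((cnt x ((i : ℝ) / K) (((i : ℝ) + 1) / K) N : ℝ) / N))
        atTop (𝓝 (Real.cos (2 * π * ((i : ℝ) / K)) * (1 / K))) := by
      intro i hi
      have hi' := Finset.mem_range.1 hi
      have hi2 : (i : ℝ) + 1 ≤ K := by
        rw [hK]
        exact_mod_cast (by omega : i + 1 ≤ 2 * m)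
      have h2 := hx ((i : ℝ) / K) (((i : ℝ) + 1) / K) (by positivity)
        (div_le_div_of_nonneg_right (by linarith) hK0.le) (by
          rw [div_le_one hK0]
          exact hi2)
      have h3 : ((i : ℝ) + 1) / K - (i : ℝ) / K = 1 / K := by
        rw [← sub_div]
        congr 1
        ring
      rw [h3] at h2
      exact h2.const_mul _
    have h2 := tendsto_finsetSum _ h1
    rw [← Finset.sum_mul, sum_cos_zero m hm1', zero_mul] at h2
    exact h2
  obtain ⟨N₀, hN₀⟩ := Metric.tendsto_atTop.1 hlim (ε / 2) (by positivity)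
  refine ⟨N₀ + 1, fun N hN => ?_⟩
  have hN0 : (0 : ℝ) < N := by exact_mod_cast (by omega : 0 < N)
  have h4 := hN₀ N (by omega)
  rw [Real.dist_eq, sub_zero] at h4 ⊢
  have h5 : |(∑ n ∈ Finset.range N, Real.cos (2 * π * x n)) / (N : ℝ) -
      ∑ i ∈ Finset.range (m + m), Real.cos (2 * π * ((i : ℝ) / K)) *
        ((cnt x ((i : ℝ) / K) (((i : ℝ) + 1) / K) N : ℝ) / N)| ≤ 2 * π / K := by
    have e1 : ∑ i ∈ Finset.range (m + m), Real.cos (2 * π * ((i : ℝ) / K)) *
        ((cnt x ((i : ℝ) / K) (((i : ℝ) + 1) / K) N : ℝ) / N) =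
        (∑ n ∈ Finset.range N, ∑ i ∈ Finset.range (m + m), Real.cos (2 * π * ((i : ℝ) / K)) *
          (if (i : ℝ) / K ≤ Int.fract (x n) ∧ Int.fract (x n) < ((i : ℝ) + 1) / K then 1 else 0)) /
          N := by
      rw [Finset.sum_comm, Finset.sum_div]
      refine Finset.sum_congr rfl fun i _ => ?_
      rw [cnt, Finset.card_filter, ← Finset.mul_sum]
      push_cast
      ring
    rw [e1, ← sub_div, ← Finset.sum_sub_distrib, abs_div, abs_of_pos hN0, div_le_iff₀ hN0]
    refine (Finset.abs_sum_le_sum_abs _ _).trans ?_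
    have e2 : ∀ n ∈ Finset.range N, |Real.cos (2 * π * x n) -
        ∑ i ∈ Finset.range (m + m), Real.cos (2 * π * ((i : ℝ) / K)) *
          (if (i : ℝ) / K ≤ Int.fract (x n) ∧ Int.fract (x n) < ((i : ℝ) + 1) / K then 1 else 0)| ≤
          2 * π / K := by
      intro n _
      have g0 := Int.fract_nonneg (x n)
      have g1 := Int.fract_lt_one (x n)
      set i₀ := ⌊K * Int.fract (x n)⌋₊ with hi₀
      have hi₀lt : i₀ < m + m := by
        rw [hi₀, Nat.floor_lt (by positivity)]
        push_cast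
        rw [hK]
        nlinarith
      have e3 : ∑ i ∈ Finset.range (m + m), Real.cos (2 * π * ((i : ℝ) / K)) *
          (if (i : ℝ) / K ≤ Int.fract (x n) ∧ Int.fract (x n) < ((i : ℝ) + 1) / K then 1 else 0) =
          Real.cos (2 * π * ((i₀ : ℝ) / K)) := by
        rw [Finset.sum_eq_single i₀]
        · rw [if_pos ((arc_iff hK0 g0 i₀).2 rfl), mul_one]
        · intro i _ hi
          rw [if_neg (fun h => hi ((arc_iff hK0 g0 i).1 h)), mul_zero]
        · intro h
          exact absurd (Finset.mem_range.2 hi₀lt) h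
      rw [e3, cos_fract (x n)]
      refine (cos_lip _ _).trans ?_
      have g2 := (arc_iff hK0 g0 i₀).2 rfl
      have g3 : ((i₀ : ℝ) + 1) / K = i₀ / K + 1 / K := add_div _ _ _
      have g4 : |Int.fract (x n) - (i₀ : ℝ) / K| ≤ 1 / K := by
        rw [abs_le]
        have : 0 < 1 / K := by positivity
        constructor <;> linarith [g2.1, g2.2]
      calc 2 * π * |Int.fract (x n) - (i₀ : ℝ) / K| ≤ 2 * π * (1 / K) :=
            mul_le_mul_of_nonneg_left g4 (by positivity)
        _ = _ := by ring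
    refine (Finset.sum_le_sum e2).trans (le_of_eq ?_)
    rw [Finset.sum_const, Finset.card_range, nsmul_eq_mul]
    ring
  have h6 : 2 * π / K < ε / 2 := by
    rw [hK]
    rw [div_lt_iff₀ hε] at hm2
    rw [div_lt_div_iff₀ (by positivity) (by norm_num)]
    linarith
  have h7 := abs_le.1 h5
  have h8 := abs_lt.1 h4
  rw [abs_lt]
  constructor <;> linarith [h7.1, h7.2, h8.1, h8.2]

/-- The reduction for a countable family of real bases. -/
theorem reduceX (α : ℕ → ℝ) (hα : ∀ i, 1 < |α i|) (ty : ℕ → ℕ) :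
    ∃ g : (ℕ → ℕ) → ℝ, Continuous g ∧ ∀ w i,
      ((∀ e, ∃ J, ∀ j, J ≤ j → rel α (ty j) i → e ≤ w j) → UD (fun n => g w * α i ^ n)) ∧
      ((∃ e, ∀ J, ∃ j, J ≤ j ∧ ty j = i ∧ w j ≤ e) → ¬ UD (fun n => g w * α i ^ n)) := by
  classical
  obtain ⟨D, st, rt, c, hc0, hloc, hgrow, hth, hnest, hrt, hprop⟩ := exists_stagesX α hα ty
  have h2 : (1 : ℝ) < 2 := by norm_num
  -- nested endpoints
  have hends : ∀ y j, (st y j).2 ≤ (st y (j + 1)).2 ∧
      (st y (j + 1)).2 + 2 / (2 : ℝ) ^ (st y (j + 1)).1 ≤ (st y j).2 + 2 / (2 : ℝ) ^ (st y j).1 := by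
    intro y j
    have h1 := hnest y j
    have h2 : (st y (j + 1)).2 ≤ (st y (j + 1)).2 + 2 / (2 : ℝ) ^ (st y (j + 1)).1 := by
      have : 0 < 2 / (2 : ℝ) ^ (st y (j + 1)).1 := by positivity
      linarith
    exact (Set.Icc_subset_Icc_iff h2).1 h1
  have hmono : ∀ y, Monotone fun j => (st y j).2 := fun y =>
    monotone_nat_of_le_succ fun j => (hends y j).1
  have hanti : ∀ y, Antitone fun j => (st y j).2 + 2 / (2 : ℝ) ^ (st y j).1 := fun y =>
    antitone_nat_of_succ_le fun j => (hends y j).2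
  have hcross : ∀ y i j, (st y i).2 ≤ (st y j).2 + 2 / (2 : ℝ) ^ (st y j).1 := by
    intro y i j
    have h1 : (st y i).2 ≤ (st y (max i j)).2 := hmono y (le_max_left i j)
    have h2 : (st y (max i j)).2 + 2 / (2 : ℝ) ^ (st y (max i j)).1 ≤
        (st y j).2 + 2 / (2 : ℝ) ^ (st y j).1 := hanti y (le_max_right i j)
    have : 0 < 2 / (2 : ℝ) ^ (st y (max i j)).1 := by positivity
    linarith
  set g : (ℕ → ℕ) → ℝ := fun y => ⨆ j, (st y j).2 with hg
  have hbdd : ∀ y, BddAbove (Set.range fun j => (st y j).2) := by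
    intro y
    refine ⟨(st y 0).2 + 2 / (2 : ℝ) ^ (st y 0).1, ?_⟩
    rintro _ ⟨j, rfl⟩
    exact hcross y j 0
  have hmem : ∀ y j, g y ∈ Set.Icc (st y j).2 ((st y j).2 + 2 / (2 : ℝ) ^ (st y j).1) := by
    intro y j
    exact ⟨le_ciSup (hbdd y) j, ciSup_le fun i => hcross y i j⟩
  have hlen : ∀ y j, j ≤ (st y j).1 := by
    intro y j
    induction j with
    | zero => exact Nat.zero_le _
    | succ j ih =>
      have := (hgrow y j).1
      omega
  refine ⟨g, ?_, fun w i => ⟨?_, ?_⟩⟩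
  · -- continuity
    rw [continuous_iff_continuousAt]
    intro y
    rw [Metric.continuousAt_iff']
    intro ε hε
    obtain ⟨j, hj⟩ : ∃ j : ℕ, 2 / (2 : ℝ) ^ j < ε := by
      obtain ⟨j, hj⟩ := pow_unbounded_of_one_lt (2 / ε) h2
      refine ⟨j, ?_⟩
      rw [div_lt_iff₀ (by positivity)]
      rw [div_lt_iff₀ hε] at hj
      linarith
    have hev : ∀ᶠ y' in 𝓝 y, ∀ i ∈ Finset.range j, y' i = y i := by
      rw [Filter.eventually_all_finset]
      intro i _
      have h1 : ContinuousAt (fun y' : ℕ → ℕ => y' i) y := (continuous_apply i).continuousAt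
      exact h1.eventually (eventually_of_mem ((isOpen_discrete {y i}).mem_nhds rfl)
        (fun z hz => hz))
    filter_upwards [hev] with y' hy'
    have h1 : st y' j = st y j := hloc y' y j fun i hi => hy' i (Finset.mem_range.2 hi)
    have h2 := hmem y j
    have h3 := hmem y' j
    rw [h1] at h3
    have h4 : 2 / (2 : ℝ) ^ (st y j).1 ≤ 2 / (2 : ℝ) ^ j := by
      refine div_le_div_of_nonneg_left (by norm_num) (by positivity) ?_
      exact pow_le_pow_right₀ (by norm_num) (hlen y j)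
    rw [Real.dist_eq, abs_lt]
    constructor <;> linarith [h2.1, h2.2, h3.1, h3.2]
  · -- uniform distribution
    intro hy
    refine ud_of_weyl _ fun h hh => ?_
    have hbt := hα i
    refine small_o (fun n => ‖∑ m ∈ Finset.range n, ee (h * (g w * α i ^ m))‖)
      (fun j => tau |α i| 2 (st w j).1)
      (fun j => (if Irrational (Real.logb |α (ty j)| |α i|) then 0 else 1 / ((w j : ℝ) + 1)) +
        1 / ((j : ℝ) + 1) + 1 / (j : ℝ)) ?_
      (h + i + 1) ?_ ?_ ?_ (fun n => norm_nonneg _)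
    · have h1 : Tendsto (fun j => if Irrational (Real.logb |α (ty j)| |α i|) then (0 : ℝ) else
          1 / ((w j : ℝ) + 1)) atTop (𝓝 0) := by
        rw [Metric.tendsto_atTop]
        intro ε hε
        obtain ⟨e, he⟩ := exists_nat_gt (1 / ε)
        obtain ⟨J, hJ⟩ := hy e
        refine ⟨J, fun j hj => ?_⟩
        rw [Real.dist_eq, sub_zero]
        split_ifs with hjt
        · rw [abs_zero]
          exact hε
        · have h2 : (e : ℝ) ≤ w j := by exact_mod_cast hJ j hj hjt
          rw [abs_of_nonneg (by positivity), div_lt_iff₀ (by positivity)]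
          rw [div_lt_iff₀ hε] at he
          nlinarith
      have h2 : Tendsto (fun j : ℕ => 1 / ((j : ℝ) + 1)) atTop (𝓝 0) :=
        tendsto_one_div_add_atTop_nhds_zero_nat
      have h3 : Tendsto (fun j : ℕ => 1 / (j : ℝ)) atTop (𝓝 0) := tendsto_one_div_atTop_nhds_zero_nat
      simpa using (h1.add h2).add h3
    · intro j hj
      obtain ⟨j', rfl⟩ : ∃ j', j = j' + 1 := ⟨j - 1, by omega⟩
      refine tau_four hbt h2 (hgrow w (j' + 1)).2 ?_
      have := hth w j' i (by omega)
      omega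
    · intro j hj
      obtain ⟨j', rfl⟩ : ∃ j', j = j' + 1 := ⟨j - 1, by omega⟩
      have := hth w j' i (by omega)
      omega
    · intro j hj n hn1 hn2
      obtain ⟨j', rfl⟩ : ∃ j', j = j' + 1 := ⟨j - 1, by omega⟩
      have hth' := hth w j' i (by omega)
      have hpr := (hprop w (j' + 1) (g w) (hmem w _)).2 i (by omega) h hh (by omega) n hn1 hn2
      set a0 := tau |α i| 2 (st w (j' + 1)).1 with ha0
      have hj0 : (0 : ℝ) < ((j' + 1 : ℕ) : ℝ) := by positivity
      have hD : (D (j' + 2) : ℝ) ≤ (a0 : ℝ) / ((j' + 1 : ℕ) : ℝ) := by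
        rw [le_div_iff₀ hj0]
        have h1 : (j' + 1) * (D (j' + 2) + 1) ≤ a0 := by omega
        have h2 : ((j' + 1 : ℕ) : ℝ) * ((D (j' + 2) : ℝ) + 1) ≤ a0 := by exact_mod_cast h1
        nlinarith
      have hna : (a0 : ℝ) ≤ n := by exact_mod_cast hn1
      have hjn : (a0 : ℝ) / ((j' + 1 : ℕ) : ℝ) ≤ 1 / ((j' + 1 : ℕ) : ℝ) * n := by
        rw [one_div_mul_eq_div]
        exact div_le_div_of_nonneg_right hna hj0.le
      have hn0 : (0 : ℝ) ≤ n := Nat.cast_nonneg n
      have hbias : (if Irrational (Real.logb |α (ty (j' + 1))| |α i|) then (0 : ℝ) else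
          (a0 : ℝ) / ((w (j' + 1) + 1 : ℕ) : ℝ)) ≤
          (if Irrational (Real.logb |α (ty (j' + 1))| |α i|) then 0 else
            1 / ((w (j' + 1) : ℝ) + 1)) * n := by
        by_cases hjt : Irrational (Real.logb |α (ty (j' + 1))| |α i|)
        · rw [if_pos hjt, if_pos hjt, zero_mul]
        · rw [if_neg hjt, if_neg hjt, one_div_mul_eq_div]
          push_cast
          exact div_le_div_of_nonneg_right hna (by positivity)
      have h4 : ((n - a0 : ℕ) : ℝ) / ((j' + 1 + 1 : ℕ) : ℝ) ≤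
          1 / (((j' + 1 : ℕ) : ℝ) + 1) * n := by
        rw [one_div_mul_eq_div]
        push_cast
        refine div_le_div_of_nonneg_right ?_ (by positivity)
        exact_mod_cast (Nat.sub_le n a0)
      change ‖∑ m ∈ Finset.range n, ee (h * (g w * α i ^ m))‖ ≤
        ‖∑ m ∈ Finset.range a0, ee (h * (g w * α i ^ m))‖ + _
      rw [← Finset.sum_range_add_sum_Ico _ hn1]
      refine (norm_add_le _ _).trans (add_le_add le_rfl ?_)
      rw [add_mul, add_mul]
      linarith
  · -- failure of uniform distribution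
    rintro ⟨e, he⟩ hud
    have hlim := ud_cos _ hud
    have he0 : (0 : ℝ) ≤ e := Nat.cast_nonneg e
    have hci := hc0 i
    set ε : ℝ := 1 / (8 * c i * ((e : ℝ) + 1)) with hε
    have hε0 : 0 < ε := by positivity
    obtain ⟨N₀, hN₀⟩ := Metric.tendsto_atTop.1 hlim ε hε0
    obtain ⟨j, hj, hjt, hje⟩ := he (N₀ + 2 * (e + 1) + 2)
    obtain ⟨j', rfl⟩ : ∃ j', j = j' + 1 := ⟨j - 1, by omega⟩
    have hth' := hth w j' i (by omega)
    have hrt' := hrt w (j' + 1)
    have hpr := (hprop w (j' + 1) (g w) (hmem w _)).1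
    rw [hjt] at hrt' hpr
    simp only [cos_abs_pow] at hpr
    set n := tau |α i| 2 (st w (j' + 1)).1 with hn
    set L := rt w (j' + 1) with hL
    have hnj : j' + 1 ≤ n := by nlinarith
    have hA : ∀ N, N₀ ≤ N → 0 < N →
        |∑ m ∈ Finset.range N, Real.cos (2 * π * (g w * α i ^ m))| ≤ ε * N := by
      intro N hN hN0
      have h3 := hN₀ N hN
      have hN0' : (0 : ℝ) < N := by exact_mod_cast hN0
      rw [Real.dist_eq, sub_zero, abs_div, abs_of_pos hN0', div_lt_iff₀ hN0'] at h3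
      exact h3.le
    have hA1 := abs_le.1 (hA n (by omega) (by omega))
    have hA2 := abs_le.1 (hA (n + L) (by omega) (by omega))
    have hsum : ∑ m ∈ Finset.range (n + L), Real.cos (2 * π * (g w * α i ^ m)) =
        ∑ m ∈ Finset.range n, Real.cos (2 * π * (g w * α i ^ m)) +
        ∑ m ∈ Finset.Ico n (n + L), Real.cos (2 * π * (g w * α i ^ m)) :=
      (Finset.sum_range_add_sum_Ico _ (Nat.le_add_right n L)).symm
    have hkey : (L : ℝ) / c i ≤ ε * (2 * n + L) := by
      rw [hsum] at hA2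
      push_cast at hA2
      linarith [hA1.1, hA1.2, hA2.1, hA2.2]
    have hLlow : (n : ℝ) ≤ 2 * ((e : ℝ) + 1) * L := by
      have e1 : n ≤ (e + 1) * (L + D (j' + 2)) :=
        hrt'.1.trans (Nat.mul_le_mul_right _ (by omega))
      have e2 : 2 * (e + 1) * D (j' + 2) ≤ n := by
        have : 2 * (e + 1) * D (j' + 2) ≤ (j' + 1) * (D (j' + 2) + 1) :=
          Nat.mul_le_mul (by omega) (by omega)
        omega
      have e3 : n ≤ 2 * (e + 1) * L := by nlinarith
      exact_mod_cast e3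
    have hLpos : (0 : ℝ) < L := by
      have : (0 : ℝ) < n := by exact_mod_cast (by omega : 0 < n)
      by_contra hcon
      have : (L : ℝ) ≤ 0 := not_lt.1 hcon
      nlinarith
    -- contradiction
    have e1 : ε * (2 * n + L) ≤ ε * ((5 * ((e : ℝ) + 1)) * L) := by
      refine mul_le_mul_of_nonneg_left ?_ hε0.le
      nlinarith
    have e2 : ε * ((5 * ((e : ℝ) + 1)) * L) = (5 / 8) * (L / c i) := by
      rw [hε]
      field_simp
    have e3 : 0 < (L : ℝ) / c i := by positivity
    linarith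

end Pool.Agent.H534R3.Rota
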