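import Pool.Agent.H41.Lib.H534R3.XBlk
import Pool.Agent.H41.Lib.H534R3.Two
/-! # Stages for countably many real bases -/

set_option autoImplicit false

open MeasureTheory Filter Topology
open scoped Real

namespace Pool.Agent.H534R3.Rota

open Pool.Agent.H534R3.UDist

/-- The ratio of the logarithms of the absolute values of the two bases is rational. -/
def rel (α : ℕ → ℝ) (i i' : ℕ) : Prop := ¬ Irrational (Real.logb |α i| |α i'|)

theorem irr_pow {b a : ℝ} (hb : 1 < b) (k : ℕ) (hk : 1 ≤ k) (h : Irrational (Real.logb b a)) :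
    Irrational (Real.logb (b ^ k) a) := by
  have hk0 : (k : ℝ) ≠ 0 := by
    have : k ≠ 0 := by omega
    exact_mod_cast this
  have hl : Real.log b ≠ 0 := (Real.log_pos hb).ne'
  have h1 : Real.logb b a = k * Real.logb (b ^ k) a := by
    rw [Real.logb, Real.logb, Real.log_pow]
    field_simp
  rintro ⟨x, hx⟩
  refine h ⟨k * x, ?_⟩
  rw [h1, ← hx]
  push_cast
  ring

open Classical in
/-- The data of the construction. -/
theorem exists_stagesX (α : ℕ → ℝ) (hα : ∀ i, 1 < |α i|) (ty : ℕ → ℕ) :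
    ∃ (D : ℕ → ℕ) (st : (ℕ → ℕ) → ℕ → ℕ × ℝ) (rt : (ℕ → ℕ) → ℕ → ℕ) (c : ℕ → ℝ),
      (∀ i, 0 < c i) ∧
      (∀ w w' j, (∀ i < j, w i = w' i) → st w j = st w' j) ∧
      (∀ w j, (st w j).1 < (st w (j + 1)).1 ∧ 4 * (st w j).1 ≤ (st w (j + 1)).1) ∧
      (∀ w j, ∀ i ≤ j + ty (j + 1),
        (j + 1) * (D (j + 2) + 1) + 2 ≤ tau |α i| 2 (st w (j + 1)).1) ∧
      (∀ w j, Set.Icc (st w (j + 1)).2 ((st w (j + 1)).2 + 2 / (2 : ℝ) ^ (st w (j + 1)).1) ⊆
        Set.Icc (st w j).2 ((st w j).2 + 2 / (2 : ℝ) ^ (st w j).1)) ∧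
      (∀ w j, tau |α (ty j)| 2 (st w j).1 ≤ (w j + 1) * (rt w j + D (j + 1)) ∧
        (w j + 1) * rt w j ≤ tau |α (ty j)| 2 (st w j).1) ∧
      (∀ w j, ∀ ξ ∈ Set.Icc (st w (j + 1)).2 ((st w (j + 1)).2 + 2 / (2 : ℝ) ^ (st w (j + 1)).1),
        ((rt w j : ℝ) / c (ty j) ≤ ∑ m ∈ Finset.Ico (tau |α (ty j)| 2 (st w j).1)
          (tau |α (ty j)| 2 (st w j).1 + rt w j), Real.cos (2 * π * (ξ * |α (ty j)| ^ m))) ∧
        ∀ i ≤ j, ∀ h : ℕ, 1 ≤ h → h ≤ j + 1 → ∀ N,
          tau |α i| 2 (st w j).1 ≤ N → N ≤ tau |α i| 2 (st w (j + 1)).1 →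
          ‖∑ m ∈ Finset.Ico (tau |α i| 2 (st w j).1) N, ee (h * (ξ * α i ^ m))‖ ≤
            (if Irrational (Real.logb |α (ty j)| |α i|) then 0 else
              (tau |α i| 2 (st w j).1 : ℝ) / (w j + 1 : ℕ)) +
            ((N - tau |α i| 2 (st w j).1 : ℕ) : ℝ) / (j + 1 : ℕ) + D (j + 1)) := by
  choose k hk1 hk16 hkc using fun i => exists_k16 (hα i)
  have hG := fun q : ℕ => Grep α hα (b := 2) (by norm_num) (q + 1) (by omega)
  choose M2 D2 hM2 uG hG1 hG2 using hG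
  have hX := fun (q : ℕ) (t : ℕ) => XRep (hα t) (k t) (hk1 t) (hk16 t) (hkc t) α hα (q + 1) (by omega)
  choose M D1 hM uX hX1 hX2 using hX
  have hgap : ∀ t i : ℕ, ∃ g : ℕ, |α i| * (|α t| + 2) ≤ |α i| ^ g := by
    intro t i
    obtain ⟨g, hg⟩ := pow_unbounded_of_one_lt (|α i| * (|α t| + 2)) (hα i)
    exact ⟨g, hg.le⟩
  choose g hg using hgap
  set G : ℕ → ℕ := fun j => (Finset.range (j + 1)).sup (g (ty j)) with hGdef
  have hgG : ∀ j, ∀ i ≤ j, g (ty j) i ≤ G j := fun j i hi =>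
    Finset.le_sup (f := g (ty j)) (Finset.mem_range.2 (by omega))
  have hgap1 : ∀ j, ∀ i ≤ j, |α i| * |α (ty j)| ≤ |α i| ^ G j := by
    intro j i hi
    have h1 := hg (ty j) i
    have h2 := pow_le_pow_right₀ (hα i).le (hgG j i hi)
    have h3 := hα i
    nlinarith
  have hgap2 : ∀ j, ∀ i ≤ j, |α i| * 2 ≤ |α i| ^ G j := by
    intro j i hi
    have h1 := hg (ty j) i
    have h2 := pow_le_pow_right₀ (hα i).le (hgG j i hi)
    have h3 := hα i
    have h4 := hα (ty j)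
    nlinarith
  set D : ℕ → ℕ := fun j => 2 * G (j - 1) + (D1 (j - 1) (ty (j - 1)) + 1 + G (j - 1)) +
    D2 (j - 1) + M (j - 1) (ty (j - 1)) with hD
  have hTh : ∀ j : ℕ, ∃ Th : ℕ, ∀ n, Th ≤ n → ∀ i ≤ j + ty (j + 1),
      (j + 1) * (D (j + 2) + 1) + 2 ≤ tau |α i| 2 n := by
    intro j
    have h1 : ∀ i, ∃ s : ℕ, |α i| ^ ((j + 1) * (D (j + 2) + 1) + 2 + 1) ≤ (2 : ℝ) ^ s := by
      intro i
      obtain ⟨s, hs⟩ := pow_unbounded_of_one_lt
        (|α i| ^ ((j + 1) * (D (j + 2) + 1) + 2 + 1)) (show (1 : ℝ) < 2 by norm_num)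
      exact ⟨s, hs.le⟩
    choose s hs using h1
    refine ⟨(Finset.range (j + ty (j + 1) + 1)).sup s, fun n hn i hi => ?_⟩
    have h2 : s i ≤ n := (Finset.le_sup (f := s) (Finset.mem_range.2 (by omega))).trans hn
    have h3 := tau_diff (a := |α i|) (b := 2) (hα i) (by norm_num) (M := n)
      ((hs i).trans (pow_le_pow_right₀ (by norm_num) h2)) 0
    rw [zero_add] at h3
    omega
  choose Th hTh using hTh
  -- one step
  set pp : ℕ → ℕ × ℝ → ℕ := fun j s => tau |α (ty j)| 2 s.1 with hpp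
  set TT : ℕ → ℕ → ℕ × ℝ → ℕ := fun j e s => pp j s / ((e + 1) * M j (ty j)) with hTT
  set p' : ℕ → ℕ → ℕ × ℝ → ℕ := fun j e s => pp j s + M j (ty j) * TT j e s with hp'
  set n1 : ℕ → ℕ → ℕ × ℝ → ℕ := fun j e s => tau 2 |α (ty j)| (p' j e s) with hn1
  set u1 : ℕ → ℕ → ℕ × ℝ → ℝ := fun j e s => uX j (ty j) (TT j e s) (pp j s) s.2 with hu1
  set nxt : ℕ → ℕ → ℕ × ℝ → ℕ × ℝ := fun j e s =>
    (n1 j e s + M2 j * (4 * s.1 + Th j + 1), uG j (4 * s.1 + Th j + 1) (n1 j e s) (u1 j e s))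
    with hnxt
  set st : (ℕ → ℕ) → ℕ → ℕ × ℝ := fun w j => Nat.rec (0, 0) (fun j s => nxt j (w j) s) j with hst
  have hst1 : ∀ w j, st w (j + 1) = nxt j (w j) (st w j) := fun w j => rfl
  -- facts about one step
  have f1 : ∀ j s, (2 : ℝ) ^ s.1 ≤ |α (ty j)| ^ pp j s := fun j (s : ℕ × ℝ) =>
    tau_spec (hα _) 2 s.1
  have f2 : ∀ j e s, |α (ty j)| ^ p' j e s ≤ (2 : ℝ) ^ n1 j e s := fun j e s =>
    tau_spec (by norm_num) _ _
  have f3 : ∀ j e s, pp j s ≤ p' j e s := fun j e s => Nat.le_add_right _ _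
  have f4 : ∀ j e (s : ℕ × ℝ), s.1 ≤ n1 j e s := by
    intro j e s
    have h1 : (2 : ℝ) ^ s.1 ≤ (2 : ℝ) ^ n1 j e s :=
      (f1 j s).trans ((pow_le_pow_right₀ (hα _).le (f3 j e s)).trans (f2 j e s))
    exact (pow_le_pow_iff_right₀ (by norm_num)).1 h1
  have f5 : ∀ j e (s : ℕ × ℝ), n1 j e s + (4 * s.1 + Th j + 1) ≤ (nxt j e s).1 := by
    intro j e s
    have := Nat.mul_le_mul_right (4 * s.1 + Th j + 1) (hM2 j)
    simp only [hnxt]
    omega
  have f6 : ∀ j e (s : ℕ × ℝ), (2 : ℝ) ^ n1 j e s ≤ 2 * |α (ty j)| ^ p' j e s := fun j e s =>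
    tau_up (by norm_num) (hα _) _
  have f7 : ∀ j (s : ℕ × ℝ), |α (ty j)| ^ pp j s ≤ |α (ty j)| * (2 : ℝ) ^ s.1 := fun j s =>
    tau_up (hα _) (by norm_num) _
  have f8 : ∀ j e (s : ℕ × ℝ), (e + 1) * (M j (ty j) * TT j e s) ≤ pp j s := by
    intro j e s
    rw [← mul_assoc]
    exact Nat.mul_div_le _ _
  refine ⟨D, st, fun w j => M j (ty j) * TT j (w j) (st w j), fun i => 64 * k i, ?_, ?_, ?_, ?_,
    ?_, ?_, ?_⟩
  · intro i
    have : (0 : ℝ) < k i := by exact_mod_cast hk1 i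
    positivity
  · intro w w' j
    induction j with
    | zero => intro _; rfl
    | succ j ih =>
      intro h
      rw [hst1, hst1, ih fun i hi => h i (by omega), h j (by omega)]
  · intro w j
    have h1 := f5 j (w j) (st w j)
    have h2 := f4 j (w j) (st w j)
    rw [hst1]
    exact ⟨by omega, by omega⟩
  · intro w j i hi
    have h1 := f5 j (w j) (st w j)
    rw [hst1]
    exact hTh j _ (by omega) i hi
  · intro w j
    rw [hst1]
    refine (hG1 j _ _ _).trans ?_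
    have e1 : Set.Icc (u1 j (w j) (st w j)) (u1 j (w j) (st w j) + 2 / (2 : ℝ) ^ n1 j (w j) (st w j)) ⊆
        Set.Icc (u1 j (w j) (st w j))
          (u1 j (w j) (st w j) + 2 / |α (ty j)| ^ p' j (w j) (st w j)) := by
      refine Set.Icc_subset_Icc le_rfl (add_le_add le_rfl ?_)
      refine div_le_div_of_nonneg_left (by norm_num) ?_ (f2 _ _ _)
      have := hα (ty j)
      positivity
    refine e1.trans ((hX1 j (ty j) _ _ _).trans ?_)
    refine Set.Icc_subset_Icc le_rfl (add_le_add le_rfl ?_)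
    exact div_le_div_of_nonneg_left (by norm_num) (by positivity) (f1 _ _)
  · intro w j
    have hM0 : 0 < M j (ty j) := hM j (ty j)
    have hMD : M j (ty j) ≤ D (j + 1) := by
      simp only [hD, Nat.add_sub_cancel]
      omega
    refine ⟨?_, f8 _ _ _⟩
    change pp j (st w j) ≤ _
    have h1 := Nat.lt_mul_div_succ (pp j (st w j)) (show 0 < (w j + 1) * M j (ty j) by positivity)
    have h2 : (w j + 1) * M j (ty j) * (TT j (w j) (st w j) + 1) ≤
        (w j + 1) * (M j (ty j) * TT j (w j) (st w j) + D (j + 1)) := by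
      rw [mul_assoc]
      refine Nat.mul_le_mul_left _ ?_
      rw [Nat.mul_add, Nat.mul_one]
      omega
    exact h1.le.trans h2
  · intro w j ξ hξ
    rw [hst1] at hξ
    have hξ1 := hG1 j _ _ _ hξ
    have e1 : Set.Icc (u1 j (w j) (st w j)) (u1 j (w j) (st w j) + 2 / (2 : ℝ) ^ n1 j (w j) (st w j)) ⊆
        Set.Icc (u1 j (w j) (st w j))
          (u1 j (w j) (st w j) + 2 / |α (ty j)| ^ p' j (w j) (st w j)) := by
      refine Set.Icc_subset_Icc le_rfl (add_le_add le_rfl ?_)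
      refine div_le_div_of_nonneg_left (by norm_num) ?_ (f2 _ _ _)
      have := hα (ty j)
      positivity
    have hξ2 := e1 hξ1
    obtain ⟨b1, b2⟩ := hX2 j (ty j) _ _ _ ξ hξ2
    refine ⟨b1, fun i hi h hh1 hh2 N hN1 hN2 => ?_⟩
    have hgen := hG2 j _ _ _ ξ hξ i (by omega) h hh1 (by omega)
    rw [hst1] at hN2
    generalize hs : st w j = s at *
    generalize he : w j = e at *
    have hq0 : (0 : ℝ) < ((j + 1 : ℕ) : ℝ) := by positivity
    have h01 : tau |α i| 2 s.1 ≤ tau |α i| |α (ty j)| (pp j s) := tau_le_tau (hα _) (f1 j s)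
    have h12 : tau |α i| |α (ty j)| (pp j s) ≤ tau |α i| |α (ty j)| (p' j e s) :=
      tau_mono (hα _) (hα _) (f3 j e s)
    have h23 : tau |α i| |α (ty j)| (p' j e s) ≤ tau |α i| 2 (n1 j e s) :=
      tau_le_tau (hα _) (f2 j e s)
    have g01 : tau |α i| |α (ty j)| (pp j s) ≤ tau |α i| 2 s.1 + G j :=
      tau_gap (hα _) (hα _) (K := |α (ty j)|) (abs_nonneg _) (f7 j s) (hgap1 j i hi)
    have g23 : tau |α i| 2 (n1 j e s) ≤ tau |α i| |α (ty j)| (p' j e s) + G j :=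
      tau_gap (hα _) (by norm_num) (K := 2) (by norm_num) (f6 j e s) (hgap2 j i hi)
    have hDr : (D (j + 1) : ℝ) = 2 * G j + ((D1 j (ty j) : ℝ) + 1 + G j) + D2 j + M j (ty j) := by
      simp only [hD, Nat.add_sub_cancel]
      push_cast
      ring
    have hM0 : (0 : ℝ) ≤ M j (ty j) := Nat.cast_nonneg _
    have hG0 : (0 : ℝ) ≤ G j := Nat.cast_nonneg _
    have hD10 : (0 : ℝ) ≤ D1 j (ty j) := Nat.cast_nonneg _
    have hc := combine (α i) h ξ (tau |α i| 2 s.1) (tau |α i| |α (ty j)| (pp j s))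
      (tau |α i| |α (ty j)| (p' j e s)) (tau |α i| 2 (n1 j e s)) (tau |α i| 2 (nxt j e s).1) (G j)
      ((j + 1 : ℕ) : ℝ) ((D1 j (ty j) : ℝ) + 1 + G j) (D2 j)
      (if Irrational (Real.logb |α (ty j)| |α i|) then 0 else
              (tau |α i| 2 s.1 : ℝ) / (e + 1 : ℕ)) hq0 (by positivity)
      (Nat.cast_nonneg _) (by split_ifs <;> positivity) h01 h12 h23 g01 g23
      (by
        intro N hN1 hN2
        by_cases hirr : Irrational (Real.logb |α (ty j)| |α i|)
        · rw [if_pos hirr, zero_add]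
          have h1 := b2 i (by omega) (irr_pow (hα _) _ (hk1 _) hirr) h hh1 (by omega) N hN1 hN2
          refine h1.trans ?_
          linarith
        · rw [if_neg hirr]
          refine (triv_sum _ _ _ _ _).trans ?_
          have h1 := tau_bias (a := |α i|) (b := |α (ty j)|) (n := pp j s) (k := 1)
            (R := M j (ty j) * TT j e s) (e := e) (hα _) (hα _) (f8 j e s)
          rw [Nat.one_mul, Nat.one_mul] at h1
          have h2 : (N - tau |α i| |α (ty j)| (pp j s)) * (e + 1) ≤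
              (e + 1) + (tau |α i| 2 s.1 + G j) := by
            refine (Nat.mul_le_mul_right _ (Nat.sub_le_sub_right hN2 _)).trans ?_
            refine h1.trans ?_
            omega
          have h3 : ((N - tau |α i| |α (ty j)| (pp j s) : ℕ) : ℝ) * ((e : ℝ) + 1) ≤
              ((e : ℝ) + 1) + ((tau |α i| 2 s.1 : ℝ) + G j) := by exact_mod_cast h2
          have he0 : (0 : ℝ) < (e : ℝ) + 1 := by positivity
          have h4 : ((N - tau |α i| |α (ty j)| (pp j s) : ℕ) : ℝ) ≤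
              1 + ((tau |α i| 2 s.1 : ℝ) / ((e : ℝ) + 1) + (G j : ℝ) / ((e : ℝ) + 1)) := by
            rw [← add_div, ← sub_le_iff_le_add', le_div_iff₀ he0]
            linarith
          have h5 : (G j : ℝ) / ((e : ℝ) + 1) ≤ G j := by
            rw [div_le_iff₀ he0]
            have : (0 : ℝ) ≤ e := Nat.cast_nonneg _
            nlinarith
          have h6 : 0 ≤ ((N - tau |α i| |α (ty j)| (pp j s) : ℕ) : ℝ) / ((j + 1 : ℕ) : ℝ) := by
            positivity
          push_cast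
          push_cast at h6
          linarith)
      hgen N hN1 hN2
    refine hc.trans ?_
    rw [hDr]
    linarith

end Pool.Agent.H534R3.Rota
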